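import Pool.Agent.Y687.Comb4

/-!
Zhao's induction for integral even modular symbols of arbitrary level, with one exceptional prime.
-/

set_option autoImplicit false
set_option linter.style.haveILetI false

open Finset

namespace Pool.Agent.Y17.GT

open Pool.Agent.Y687 (rr mem_rr SS s_congr SS_mul SS_class dvd_sum_of_orb sum_rr chi chi_mul chi_pm
  chi_inv chi_val chi_neg sv AA dpm AA_units ne_neg_unit jac_congr jac_neg V V_factor)

/-- integral even modular symbol of level `N` with Hecke action at the primes in `G` -/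
structure GS (N : ℕ) (G : ℕ → Prop) (s : ℚ → ℤ) (a : ℕ → ℤ) : Prop where
  per : ∀ x, s (x + 1) = s x
  neg : ∀ x, s (-x) = s x
  hecke : ∀ q : ℕ, q.Prime → G q → ∀ x,
    a q * s x = s (q * x) + ∑ b ∈ Finset.range q, s ((x + b) / q)
  inv : ∀ (M : ℕ) (b d : ℤ), 0 < M → (M : ℤ) ∣ N * b * d - 1 →
    s ((b : ℚ) / M) = s ((d : ℚ) / M)

variable {N : ℕ} {G : ℕ → Prop} {s : ℚ → ℤ} {a : ℕ → ℤ}

theorem sv_neg (h : GS N G s a) {M : ℕ} [NeZero M] (u : (ZMod M)ˣ) :
    sv s (-u) = sv s u := by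
  unfold sv
  have hM : 0 < M := Nat.pos_of_ne_zero (NeZero.ne M)
  have h1 : -((((u : ZMod M).val : ℕ) : ℚ) / M) = ((-((u : ZMod M).val : ℤ) : ℤ) : ℚ) / M := by
    push_cast; ring
  rw [← h.neg ((((u : ZMod M).val : ℕ) : ℚ) / M), h1]
  have h2 := s_congr h.per hM (a := (((-u : (ZMod M)ˣ) : ZMod M).val : ℤ))
    (b := -((u : ZMod M).val : ℤ)) ?_
  · rw [← h2]
    push_cast
    rfl
  · have h3 : (((-((u : ZMod M).val : ℤ)) : ℤ) : ZMod M) =
        ((((-u : (ZMod M)ˣ) : ZMod M).val : ℤ) : ZMod M) := by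
      push_cast
      rw [ZMod.natCast_zmod_val, ZMod.natCast_zmod_val]
    exact (Int.modEq_iff_dvd.1 ((ZMod.intCast_eq_intCast_iff _ _ _).1 h3))

theorem sv_inv (h : GS N G s a) {M : ℕ} [NeZero M] (e u v : (ZMod M)ˣ)
    (he : (e : ZMod M) = N) (huv : e * u * v = 1) : sv s v = sv s u := by
  unfold sv
  have hM : 0 < M := Nat.pos_of_ne_zero (NeZero.ne M)
  have h2 := h.inv M ((u : ZMod M).val : ℤ) ((v : ZMod M).val : ℤ) hM ?_
  · push_cast at h2
    exact h2.symm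
  · have h3 : ((N * ((u : ZMod M).val : ℤ) * ((v : ZMod M).val : ℤ) : ℤ) : ZMod M) =
        ((1 : ℤ) : ZMod M) := by
      push_cast
      rw [ZMod.natCast_zmod_val, ZMod.natCast_zmod_val, ← he, ← Units.val_mul, ← Units.val_mul, huv]
      rfl
    exact (Int.modEq_iff_dvd.1 ((ZMod.intCast_eq_intCast_iff _ _ _).1 h3.symm))

theorem AA_even (h : GS N G s a) (S : Finset ℕ) (c : ℕ → ℤ)
    (hS : ∀ q ∈ S, q.Prime ∧ q % 4 = 1) (hne : S.Nonempty) : (2 : ℤ) ∣ AA s S c := by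
  classical
  have hM0 : (∏ q ∈ S, q) ≠ 0 := Finset.prod_ne_zero_iff.2 fun q hq => (hS q hq).1.ne_zero
  haveI : NeZero (∏ q ∈ S, q) := ⟨hM0⟩
  have hM2 : 2 < ∏ q ∈ S, q := by
    obtain ⟨q, hq⟩ := hne
    have h1 : q ≤ ∏ q ∈ S, q := Nat.le_of_dvd (Nat.pos_of_ne_zero hM0) (dpm hq)
    have h2 := (hS q hq).1.two_le
    have h3 := (hS q hq).2
    omega
  rw [AA_units]
  have := dvd_sum_of_orb ((Finset.univ : Finset (ZMod (∏ q ∈ S, q))ˣ).filter
      (fun u => ∀ q ∈ S, chi q u = c q)) (sv s) (fun u => {u, -u}) 2 ?_ ?_ ?_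
  · exact_mod_cast this
  · intro u _
    simp
  · intro u hu v hv
    rw [Finset.mem_filter] at hu
    simp only [Finset.mem_insert, Finset.mem_singleton] at hv
    rcases hv with rfl | rfl
    · exact ⟨Finset.mem_filter.2 hu, rfl, rfl⟩
    · refine ⟨Finset.mem_filter.2 ⟨Finset.mem_univ _, fun q hq => ?_⟩, ?_, sv_neg h u⟩
      · rw [chi_neg (dpm hq) (hS q hq).2]
        exact hu.2 q hq
      · rw [neg_neg, Finset.pair_comm]
  · intro u _
    exact Finset.card_pair (ne_neg_unit hM2 u)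

theorem jac_ne_zero_cop {N q : ℕ} (hq : q.Prime) (h : jacobiSym N q ≠ 0) : Nat.Coprime N q := by
  by_contra hne
  apply h
  haveI : NeZero q := ⟨hq.ne_zero⟩
  rw [jacobiSym.eq_zero_iff_not_coprime]
  intro hg
  apply hne
  rw [Nat.coprime_iff_gcd_eq_one]
  rwa [Int.gcd_natCast_natCast] at hg

/-- the class sums are divisible by four for a class without fixed points -/
theorem AA_four (h : GS N G s a) (S : Finset ℕ) (c : ℕ → ℤ)
    (hS : ∀ q ∈ S, q.Prime ∧ q % 4 = 1 ∧ jacobiSym N q = 1) {q1 q2 : ℕ} (hq1 : q1 ∈ S) (hq2 : q2 ∈ S)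
    (f1 : ∀ x : ℤ, (q1 : ℤ) ∣ N * x ^ 2 - 1 → jacobiSym x q1 ≠ c q1)
    (f2 : ∀ x : ℤ, (q2 : ℤ) ∣ N * x ^ 2 - (-1) → jacobiSym x q2 ≠ c q2) :
    (4 : ℤ) ∣ AA s S c := by
  classical
  have hM0 : (∏ q ∈ S, q) ≠ 0 := Finset.prod_ne_zero_iff.2 fun q hq => (hS q hq).1.ne_zero
  haveI : NeZero (∏ q ∈ S, q) := ⟨hM0⟩
  have hpM : q1 ∣ ∏ q ∈ S, q := dpm hq1
  have hM2 : 2 < ∏ q ∈ S, q := by
    have h1 : q1 ≤ ∏ q ∈ S, q := Nat.le_of_dvd (Nat.pos_of_ne_zero hM0) hpM
    have h2 := (hS q1 hq1).1.two_le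
    have h3 := (hS q1 hq1).2.1
    omega
  have h14 : Nat.Coprime N (∏ q ∈ S, q) := by
    refine Nat.Coprime.prod_right fun q hq => ?_
    exact jac_ne_zero_cop (hS q hq).1 (by rw [(hS q hq).2.2]; norm_num)
  obtain ⟨e, hev⟩ : ∃ e : (ZMod (∏ q ∈ S, q))ˣ, (e : ZMod (∏ q ∈ S, q)) = N :=
    ⟨ZMod.unitOfCoprime N h14, by rw [ZMod.coe_unitOfCoprime]⟩
  have hechi : ∀ q ∈ S, chi q e = 1 := by
    intro q hq
    rw [chi_val (dpm hq) e N (by rw [hev]; norm_num)]
    exact (hS q hq).2.2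
  -- membership is preserved
  have memG : ∀ u ∈ (Finset.univ : Finset (ZMod (∏ q ∈ S, q))ˣ).filter
      (fun u => ∀ q ∈ S, chi q u = c q), (e * u)⁻¹ ∈ (Finset.univ : Finset (ZMod (∏ q ∈ S, q))ˣ).filter
      (fun u => ∀ q ∈ S, chi q u = c q) := by
    intro u hu
    rw [Finset.mem_filter] at hu ⊢
    refine ⟨Finset.mem_univ _, fun q hq => ?_⟩
    rw [chi_inv (dpm hq), chi_mul (dpm hq), hechi q hq, one_mul]
    exact hu.2 q hq
  have memN : ∀ u ∈ (Finset.univ : Finset (ZMod (∏ q ∈ S, q))ˣ).filter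
      (fun u => ∀ q ∈ S, chi q u = c q), -u ∈ (Finset.univ : Finset (ZMod (∏ q ∈ S, q))ˣ).filter
      (fun u => ∀ q ∈ S, chi q u = c q) := by
    intro u hu
    rw [Finset.mem_filter] at hu ⊢
    refine ⟨Finset.mem_univ _, fun q hq => ?_⟩
    rw [chi_neg (dpm hq) (hS q hq).2.1]
    exact hu.2 q hq
  have svw : ∀ u : (ZMod (∏ q ∈ S, q))ˣ, sv s (e * u)⁻¹ = sv s u := fun u =>
    sv_inv h e u (e * u)⁻¹ hev (mul_inv_cancel _)
  have ww : ∀ u : (ZMod (∏ q ∈ S, q))ˣ, (e * (e * u)⁻¹)⁻¹ = u := by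
    intro u
    rw [mul_inv_rev, mul_inv_rev, mul_inv_rev]
    simp
  have wn : ∀ u : (ZMod (∏ q ∈ S, q))ˣ, (e * -u)⁻¹ = -(e * u)⁻¹ := by
    intro u
    rw [mul_neg]
    exact inv_neg
  -- no fixed points
  have nofix : ∀ u ∈ (Finset.univ : Finset (ZMod (∏ q ∈ S, q))ˣ).filter
      (fun u => ∀ q ∈ S, chi q u = c q), ∀ ε : ℤ, ∀ l : ℕ, l ∈ S →
      (∀ x : ℤ, (l : ℤ) ∣ N * x ^ 2 - ε → jacobiSym x l ≠ c l) →
      (N : ZMod (∏ q ∈ S, q)) * (u : ZMod (∏ q ∈ S, q)) ^ 2 ≠ (ε : ℤ) := by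
    intro u hu ε l hl hf heq
    rw [Finset.mem_filter] at hu
    have h1 := hu.2 l hl
    have h2 : ((N * ((u : ZMod (∏ q ∈ S, q)).val : ℤ) ^ 2 : ℤ) : ZMod (∏ q ∈ S, q)) = (ε : ℤ) := by
      push_cast
      rw [ZMod.natCast_zmod_val]
      exact heq
    have h3 := (Int.modEq_iff_dvd.1 ((ZMod.intCast_eq_intCast_iff _ _ _).1 h2.symm))
    have h4 : (l : ℤ) ∣ N * ((u : ZMod (∏ q ∈ S, q)).val : ℤ) ^ 2 - ε :=
      (Int.natCast_dvd_natCast.2 (dpm hl)).trans h3
    exact hf _ h4 h1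
  have d1 : ∀ u ∈ (Finset.univ : Finset (ZMod (∏ q ∈ S, q))ˣ).filter
      (fun u => ∀ q ∈ S, chi q u = c q), u ≠ (e * u)⁻¹ := by
    intro u hu heq
    apply nofix u hu 1 q1 hq1 f1
    have h1 : e * u * u = 1 := by
      nth_rewrite 2 [heq]
      exact mul_inv_cancel _
    have h2 := congrArg (fun v : (ZMod (∏ q ∈ S, q))ˣ => (v : ZMod (∏ q ∈ S, q))) h1
    simp only [Units.val_mul, Units.val_one, hev] at h2
    push_cast
    linear_combination h2
  have d2 : ∀ u ∈ (Finset.univ : Finset (ZMod (∏ q ∈ S, q))ˣ).filter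
      (fun u => ∀ q ∈ S, chi q u = c q), u ≠ -(e * u)⁻¹ := by
    intro u hu heq
    apply nofix u hu (-1) q2 hq2 f2
    have h1 : e * u * u = -1 := by
      nth_rewrite 2 [heq]
      rw [mul_neg, mul_inv_cancel]
    have h2 := congrArg (fun v : (ZMod (∏ q ∈ S, q))ˣ => (v : ZMod (∏ q ∈ S, q))) h1
    simp only [Units.val_mul, Units.val_neg, Units.val_one, hev] at h2
    push_cast
    linear_combination h2
  rw [AA_units]
  have := dvd_sum_of_orb ((Finset.univ : Finset (ZMod (∏ q ∈ S, q))ˣ).filter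
      (fun u => ∀ q ∈ S, chi q u = c q)) (sv s) (fun u => {u, -u, (e * u)⁻¹, -(e * u)⁻¹}) 4 ?_ ?_ ?_
  · exact_mod_cast this
  · intro u _
    simp
  · intro u hu v hv
    simp only [Finset.mem_insert, Finset.mem_singleton] at hv
    rcases hv with rfl | rfl | rfl | rfl
    · exact ⟨hu, rfl, rfl⟩
    · refine ⟨memN u hu, ?_, sv_neg h u⟩
      rw [neg_neg, wn, neg_neg]
      ext x
      simp only [Finset.mem_insert, Finset.mem_singleton]
      tauto
    · refine ⟨memG u hu, ?_, svw u⟩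
      rw [ww]
      ext x
      simp only [Finset.mem_insert, Finset.mem_singleton]
      tauto
    · refine ⟨memN _ (memG u hu), ?_, (sv_neg h _).trans (svw u)⟩
      rw [neg_neg, wn, ww, neg_neg]
      ext x
      simp only [Finset.mem_insert, Finset.mem_singleton]
      tauto
  · intro u hu
    rw [Finset.card_insert_of_notMem, Finset.card_insert_of_notMem, Finset.card_pair]
    · exact ne_neg_unit hM2 _
    · simp only [Finset.mem_insert, Finset.mem_singleton, not_or]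
      refine ⟨fun h1 => d2 u hu (by rw [← h1, neg_neg]), fun h1 => d1 u hu (neg_injective h1)⟩
    · simp only [Finset.mem_insert, Finset.mem_singleton, not_or]
      exact ⟨ne_neg_unit hM2 u, d1 u hu, d2 u hu⟩

/-- all the solutions of `N x² = δ` modulo `q` have the same quadratic symbol -/
theorem rigid {q : ℕ} (hq : q.Prime) (h4 : q % 4 = 1) (hN : jacobiSym N q = 1) (δ : ℤ)
    (hδ : δ = 1 ∨ δ = -1) :
    ∃ κ : ℤ, (κ = 1 ∨ κ = -1) ∧ ∀ x : ℤ, (q : ℤ) ∣ N * x ^ 2 - δ → jacobiSym x q = κ := by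
  have hqP : Prime (q : ℤ) := Nat.prime_iff_prime_int.1 hq
  by_cases hex : ∃ r : ℤ, (q : ℤ) ∣ N * r ^ 2 - δ
  · obtain ⟨r, hr⟩ := hex
    have hδu : ¬ (q : ℤ) ∣ δ := by
      intro h
      have h1 : (q : ℤ) ∣ 1 := by
        rcases hδ with rfl | rfl
        · exact h
        · exact (dvd_neg.1 h)
      exact hqP.not_isUnit (isUnit_of_dvd_one h1)
    have hrq : ¬ (q : ℤ) ∣ r := by
      intro h
      apply hδu
      have := dvd_sub (Dvd.dvd.mul_left (dvd_pow h two_ne_zero) (N : ℤ)) hr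
      simpa using this
    refine ⟨jacobiSym r q, jacobiSym.eq_one_or_neg_one ?_, fun x hx => ?_⟩
    · exact Int.isCoprime_iff_gcd_eq_one.1 ((Prime.coprime_iff_not_dvd hqP).2 hrq).symm
    · have h1 : (q : ℤ) ∣ N * ((x - r) * (x + r)) := by
        have e1 : (N : ℤ) * ((x - r) * (x + r)) = (N * x ^ 2 - δ) - (N * r ^ 2 - δ) := by ring
        rw [e1]
        exact dvd_sub hx hr
      have h2 : ¬ (q : ℤ) ∣ (N : ℤ) := by
        intro h3
        have h4 := jac_ne_zero_cop (N := N) hq (by rw [hN]; norm_num)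
        have h5 : q ∣ N := by exact_mod_cast h3
        exact hq.one_lt.ne' (Nat.Coprime.eq_one_of_dvd h4.symm h5)
      rcases hqP.dvd_or_dvd h1 with h3 | h3
      · exact absurd h3 h2
      · rcases hqP.dvd_or_dvd h3 with h4' | h4'
        · exact jac_congr h4'
        · rw [jac_congr (y := -r) (by simpa using h4'), jac_neg h4]
  · push Not at hex
    exact ⟨1, Or.inl rfl, fun x hx => absurd hx (hex x)⟩

theorem rigid8 {p : ℕ} (hp : p.Prime) (h8 : p % 8 = 1) (hN : jacobiSym N p = 1) :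
    ∃ κ : ℤ, (κ = 1 ∨ κ = -1) ∧ ∀ δ : ℤ, (δ = 1 ∨ δ = -1) →
      ∀ x : ℤ, (p : ℤ) ∣ N * x ^ 2 - δ → jacobiSym x p = κ := by
  obtain ⟨κ, hκ, h⟩ := rigid (N := N) hp (by omega) hN 1 (Or.inl rfl)
  refine ⟨κ, hκ, fun δ hδ x hx => ?_⟩
  haveI : Fact p.Prime := ⟨hp⟩
  obtain ⟨i, hi, hi1⟩ : ∃ i : ℤ, (p : ℤ) ∣ i ^ 2 - δ ∧ jacobiSym i p = 1 := by
    rcases hδ with rfl | rfl
    · exact ⟨1, by simp, by simp⟩
    · obtain ⟨i, hi, hi1⟩ := Pool.Agent.Y687.exists_i h8
      exact ⟨i, by simpa using hi, hi1⟩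
  have hδ2 : δ ^ 2 = 1 := by rcases hδ with rfl | rfl <;> norm_num
  have h3 : (p : ℤ) ∣ N * (i * x) ^ 2 - 1 := by
    have e1 : (N : ℤ) * (i * x) ^ 2 - 1 = (i ^ 2) * (N * x ^ 2 - δ) + δ * (i ^ 2 - δ) + (δ ^ 2 - 1) := by
      ring
    rw [e1, hδ2]
    simp only [sub_self, add_zero]
    exact dvd_add (dvd_mul_of_dvd_right hx _) (dvd_mul_of_dvd_right hi _)
  have h4 := h _ h3
  rwa [jacobiSym.mul_left, hi1, one_mul] at h4

theorem SS_prod (h : GS N G s a) (T U : Finset ℕ) (hTU : Disjoint T U)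
    (hT : ∀ q ∈ T, q.Prime) (hU : ∀ q ∈ U, q.Prime ∧ G q) :
    SS s (∏ q ∈ T, q) ((∏ q ∈ T, q) * ∏ q ∈ U, q)
      = (∏ q ∈ U, (a q - 2 * jacobiSym q (∏ q ∈ T, q))) * SS s (∏ q ∈ T, q) (∏ q ∈ T, q) := by
  classical
  induction U using Finset.induction_on with
  | empty => simp
  | insert p U hp ih =>
    rw [Finset.prod_insert hp, Finset.prod_insert hp]
    have hpp := (hU p (Finset.mem_insert_self _ _))
    have e1 : (∏ q ∈ T, q) * (p * ∏ q ∈ U, q) = ((∏ q ∈ T, q) * ∏ q ∈ U, q) * p := by ring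
    have hT0 : 0 < ∏ q ∈ T, q := Finset.prod_pos fun q hq => (hT q hq).pos
    have hU0 : 0 < ∏ q ∈ U, q :=
      Finset.prod_pos fun q hq => (hU q (Finset.mem_insert_of_mem hq)).1.pos
    have hcop : Nat.Coprime p ((∏ q ∈ T, q) * ∏ q ∈ U, q) := by
      refine Nat.Coprime.mul_right ?_ ?_
      · refine Nat.Coprime.prod_right fun q hq => ?_
        rw [Nat.coprime_primes hpp.1 (hT q hq)]
        rintro rfl
        exact (Finset.disjoint_left.1 hTU hq) (Finset.mem_insert_self _ _)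
      · refine Nat.Coprime.prod_right fun q hq => ?_
        rw [Nat.coprime_primes hpp.1 (hU q (Finset.mem_insert_of_mem hq)).1]
        rintro rfl
        exact hp hq
    rw [e1, SS_mul h.per hpp.1 (h.hecke p hpp.1 hpp.2) (Nat.mul_pos hT0 hU0) (Dvd.intro _ rfl) hcop,
      ih (hTU.mono_right (Finset.subset_insert _ _))
        (fun q hq => hU q (Finset.mem_insert_of_mem hq)), mul_assoc]

theorem SS_sub (h : GS N G s a) {T S : Finset ℕ} (hTS : T ⊆ S)
    (hS : ∀ q ∈ S, q.Prime ∧ G q) :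
    SS s (∏ q ∈ T, q) (∏ q ∈ S, q)
      = (∏ q ∈ S \ T, (a q - 2 * jacobiSym q (∏ q ∈ T, q))) * SS s (∏ q ∈ T, q) (∏ q ∈ T, q) := by
  classical
  have h1 := SS_prod h T (S \ T) Finset.disjoint_sdiff (fun q hq => (hS q (hTS hq)).1)
    (fun q hq => hS q (Finset.mem_sdiff.1 hq).1)
  rw [← h1, mul_comm, Finset.prod_sdiff hTS]

theorem SS_one_one : SS s 1 1 = s 0 := by
  unfold SS
  have : rr 1 = {0} := by decide
  rw [this, Finset.sum_singleton]
  simp

/-- the good primes of the first kind -/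
def isII (G : ℕ → Prop) (a : ℕ → ℤ) (q : ℕ) : Prop :=
  q.Prime ∧ G q ∧ q % 4 = 1 ∧ (4 : ℤ) ∣ a q

theorem L_inert (h : GS N G s a) (h0 : Odd (s 0)) (S : Finset ℕ) :
    (∀ q ∈ S, isII G a q) → V S.card (SS s (∏ q ∈ S, q) (∏ q ∈ S, q)) := by
  classical
  induction S using Finset.strongInduction with
  | H S ih =>
    intro hS
    rcases S.eq_empty_or_nonempty with rfl | hne
    · obtain ⟨k, hk⟩ := h0
      refine ⟨k, ?_⟩
      simp only [Finset.prod_empty, Finset.card_empty]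
      rw [SS_one_one, hk]
      ring
    · have hSp : ∀ q ∈ S, q.Prime ∧ G q := fun q hq => ⟨(hS q hq).1, (hS q hq).2.1⟩
      have h1 := SS_class (s := s) S (fun q hq => (hS q hq).1) (fun _ => 1) (fun _ _ => Or.inl rfl)
      simp only [Finset.prod_const_one, one_mul] at h1
      have h2 : (2 : ℤ) ∣ AA s S (fun _ => 1) :=
        AA_even h S _ (fun q hq => ⟨(hS q hq).1, (hS q hq).2.2.1⟩) hne
      obtain ⟨m, hm⟩ := h2
      have h3 : ∀ T ∈ S.powerset.erase S, V S.card (SS s (∏ q ∈ T, q) (∏ q ∈ S, q)) := by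
        intro T hT
        rw [Finset.mem_erase, Finset.mem_powerset] at hT
        rw [SS_sub h hT.2 hSp]
        have h4 : (S \ T).card + T.card = S.card := Finset.card_sdiff_add_card_eq_card hT.2
        rw [← h4]
        refine V.mul (V.prod _ _ fun q hq => ?_) (ih T (Finset.ssubset_iff_subset_ne.2 ⟨hT.2, hT.1⟩)
          fun q hq => hS q (hT.2 hq))
        rw [Finset.mem_sdiff] at hq
        exact V_factor (hS q hq.1).2.2.2 (hS q hq.1).1 (fun p hp => (hS p (hT.2 hp)).1) hq.2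
      have h5 : (2 : ℤ) ^ (S.card + 1) ∣ ∑ T ∈ S.powerset.erase S,
          (SS s (∏ q ∈ T, q) (∏ q ∈ S, q) - 2 ^ S.card) :=
        Finset.dvd_sum fun T hT => (h3 T hT).dvd
      rw [Finset.sum_sub_distrib, Finset.sum_const,
        Finset.card_erase_of_mem (Finset.mem_powerset_self S), Finset.card_powerset] at h5
      rw [← Finset.add_sum_erase _ _ (Finset.mem_powerset_self S)] at h1
      obtain ⟨n, hn⟩ := h5
      have hc : 1 ≤ S.card := Finset.card_pos.2 hne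
      obtain ⟨c, hcc⟩ : ∃ c, S.card = c + 1 := ⟨S.card - 1, by omega⟩
      refine V.of_dvd ?_
      have h6 : (((2 ^ S.card - 1 : ℕ) • (2 ^ S.card : ℤ)) : ℤ) = (2 ^ S.card - 1) * 2 ^ S.card := by
        rw [nsmul_eq_mul, Nat.cast_sub Nat.one_le_two_pow]
        push_cast
        ring
      rw [h6] at hn
      have h7 : SS s (∏ q ∈ S, q) (∏ q ∈ S, q) + ∑ T ∈ S.powerset.erase S, SS s (∏ q ∈ T, q) (∏ q ∈ S, q)
        = 2 ^ S.card * (2 * m) := by
        rw [← hm]; exact h1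
      rw [hcc] at hn h7 ⊢
      refine ⟨m - n - 2 ^ c, ?_⟩
      simp only [pow_succ] at hn h7 ⊢
      linear_combination h7 - hn

/-- the relation for a single prime -/
theorem single (h : GS N G s a) {q : ℕ} (hq : q.Prime) (hG : G q) (c : ℤ) (hc : c = 1 ∨ c = -1) :
    (a q - 2) * s 0 + c * SS s q q = 2 * AA s {q} (fun _ => c) := by
  classical
  have h1 := SS_class (s := s) {q} (fun l hl => by rw [Finset.mem_singleton.1 hl]; exact hq)
    (fun _ => c) (fun _ _ => hc)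
  have e : ({q} : Finset ℕ).powerset = {∅, {q}} := by
    rw [show ({q} : Finset ℕ) = insert q ∅ from rfl, Finset.powerset_insert]
    simp
  rw [e, Finset.sum_insert (by simp), Finset.sum_singleton] at h1
  have h2 := SS_sub h (T := ∅) (S := {q}) (Finset.empty_subset _)
    (fun l hl => by rw [Finset.mem_singleton.1 hl]; exact ⟨hq, hG⟩)
  simp only [Finset.prod_empty, Finset.sdiff_empty, Finset.prod_singleton, jacobiSym.one_right,
    mul_one, one_mul, Finset.card_singleton, pow_one] at h1 h2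
  rw [h2, SS_one_one] at h1
  unfold AA
  simp only [Finset.prod_singleton]
  exact h1

/-- the sign of the level at a prime with `a q` divisible by four -/
theorem jacN_of_four (h : GS N G s a) (h0 : Odd (s 0)) {q : ℕ} (hq : isII G a q)
    (hco : Nat.Coprime N q) : jacobiSym N q = 1 := by
  classical
  obtain ⟨hqp, hG, h4, hd⟩ := hq
  haveI : NeZero q := ⟨hqp.ne_zero⟩
  haveI : Fact q.Prime := ⟨hqp⟩
  rcases jacobiSym.eq_one_or_neg_one (a := (N : ℤ)) (b := q) (by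
    rw [Int.gcd_natCast_natCast]; exact hco) with h1 | h1
  · exact h1
  · exfalso
    -- the twisted sum vanishes
    have hz : SS s q q = 0 := by
      obtain ⟨e, hev⟩ : ∃ e : (ZMod q)ˣ, (e : ZMod q) = N :=
        ⟨ZMod.unitOfCoprime N hco, by rw [ZMod.coe_unitOfCoprime]⟩
      have e1 : SS s q q = ∑ u : (ZMod q)ˣ, chi q u * sv s u := by
        unfold SS
        rw [sum_rr (M := q) (fun n => jacobiSym (n : ℤ) q * s ((n : ℚ) / q))]
        rfl
      have e2 : ∑ u : (ZMod q)ˣ, chi q u * sv s u = ∑ u : (ZMod q)ˣ, -(chi q u * sv s u) := by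
        refine Finset.sum_bij (fun u _ => (e * u)⁻¹) (fun _ _ => Finset.mem_univ _) ?_ ?_ ?_
        · intro u _ v _ huv
          exact mul_left_cancel (inv_injective huv)
        · intro v _
          refine ⟨(e * v)⁻¹, Finset.mem_univ _, ?_⟩
          rw [mul_inv_rev, mul_inv_rev, mul_inv_rev]
          simp
        · intro u _
          have h2 := sv_inv h e u (e * u)⁻¹ hev (mul_inv_cancel _)
          rw [h2, chi_inv dvd_rfl, chi_mul dvd_rfl]
          have h3 : chi q e = -1 := by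
            rw [chi_val dvd_rfl e N (by rw [hev]; norm_num)]
            exact h1
          rw [h3]
          ring
      rw [Finset.sum_neg_distrib] at e2
      rw [e1]
      linarith
    have h2 := single h hqp hG 1 (Or.inl rfl)
    rw [hz] at h2
    obtain ⟨m, hm⟩ := AA_even h {q} (fun _ => 1) (fun l hl => by
      rw [Finset.mem_singleton.1 hl]; exact ⟨hqp, h4⟩) (Finset.singleton_nonempty q)
    obtain ⟨k, hk⟩ := hd
    obtain ⟨j, hj⟩ := h0
    rw [hm, hk, hj] at h2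
    have h3 : 2 * ((4 * k - 2) * (2 * j + 1)) = 2 * (4 * m) := by linarith
    have h4 : (4 * k - 2) * (2 * j + 1) = 4 * m := by linarith
    have h5 : 4 * (2 * k * j + k - j - m) = 2 := by linarith
    omega

/-- the exceptional prime, without the other primes -/
theorem base (h : GS N G s a) (h0 : Odd (s 0)) {p : ℕ} (hp : p.Prime) (hG : G p)
    (hp4 : p % 4 = 1) (hN : jacobiSym N p = 1) (h2 : (4 : ℤ) ∣ a p - 2) :
    (4 : ℤ) ∣ SS s p p - (a p - 2) ∧ (p % 8 = 1 → (8 : ℤ) ∣ SS s p p - (a p - 2)) := by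
  obtain ⟨k, hk⟩ := h2
  obtain ⟨j, hj⟩ := h0
  constructor
  · obtain ⟨m, hm⟩ := AA_even h {p} (fun _ => 1) (fun l hl => by
      rw [Finset.mem_singleton.1 hl]; exact ⟨hp, hp4⟩) (Finset.singleton_nonempty p)
    have h3 := single h hp hG 1 (Or.inl rfl)
    rw [hm, hj] at h3
    rw [hk] at h3 ⊢
    exact ⟨m - k * (2 * j + 1) - k, by linear_combination h3⟩
  · intro hp8
    obtain ⟨κ, hκ, hr⟩ := rigid8 (N := N) hp hp8 hN
    have hκ2 : κ * κ = 1 := by rcases hκ with rfl | rfl <;> norm_num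
    obtain ⟨m, hm⟩ := AA_four h {p} (fun _ => -κ) (fun l hl => by
      rw [Finset.mem_singleton.1 hl]; exact ⟨hp, hp4, hN⟩) (Finset.mem_singleton_self p)
      (Finset.mem_singleton_self p)
      (fun x hx => by
        rw [hr 1 (Or.inl rfl) x hx]
        rcases hκ with rfl | rfl <;> norm_num)
      (fun x hx => by
        rw [hr (-1) (Or.inr rfl) x hx]
        rcases hκ with rfl | rfl <;> norm_num)
    have h3 := single h hp hG (-κ) (by rcases hκ with rfl | rfl <;> norm_num)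
    rw [hm, hj] at h3
    rw [hk] at h3 ⊢
    rcases hκ with rfl | rfl
    · exact ⟨-m + k * j, by linear_combination -h3⟩
    · exact ⟨m - k * j - k, by linear_combination h3⟩

end Pool.Agent.Y17.GT
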