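import Pool.Agent.Y17.GT.Main
import Pool.Agent.Y18.BSD.Eleven

/-!
The condition on the central value for the curve `X_0(11)`.
-/

set_option autoImplicit false

open Complex Filter Topology Set UpperHalfPlane MatrixGroups CongruenceSubgroup ZMod

namespace Pool.Agent.Y17.GT.Eleven

open Pool.Agent.W263.BSD (pointCount GoodPrime IsLSeries)
open Pool.Agent.Y18.BSD
open Pool.Agent.TH940 (Fr prim)
open Pool.Agent.Y702 (E11)
open Pool.Agent.Y702.M (J J_spec J_int F prim_eq)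
open Pool.Agent.W97.TW (f11)
open Pool.Agent.W97.MT (affCount ap)

lemma hΔ11 : 4 * (-13392 : ℤ) ^ 3 + 27 * (-1080432 : ℤ) ^ 2 ≠ 0 := by norm_num

lemma bv_eq {C : ℂ} (hC : ∀ z : ℂ, 0 < z.im → F (-1 / (11 * z)) = C - F z)
    {Λ : Submodule ℤ ℂ} (hΛ : Pool.Agent.TH940.Pers f11 (Λ : Set ℂ)) (r : ℚ)
    (hr : r.den.Coprime 11) : bv f11 r = J r := by
  obtain ⟨w, hw, hfr0⟩ := Eleven.isFormOf.fricke
  have hfr : Fr f11 (w : ℂ) := hfr0
  have h1 := bv_tendsto f11 hfr r hr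
  have h2 := (J_spec hC hΛ r hr).2
  refine tendsto_nhds_unique h1 (h2.congr' ?_)
  filter_upwards [self_mem_nhdsWithin] with y (hy : 0 < y)
  refine (prim_eq ?_).symm
  rw [show ((r : ℂ)) = (((r : ℝ)) : ℂ) by push_cast; rfl]
  simpa using hy

lemma values : ∃ ω : ℝ, 0 < ω ∧ rs f11 0 = 2 * ω ∧
    ∀ r : ℚ, r.den.Coprime 11 → ∃ k : ℤ, rs f11 r = k * ω := by
  obtain ⟨L, Op, Om, c, hOp, hOm, g2, g3, hL, hc, hC, hΛ⟩ := Pool.Agent.Y702.M.main
  refine ⟨Op / 5, by positivity, ?_, ?_⟩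
  · unfold rs
    rw [bv_eq hC hΛ 0 (by simp)]
    have h1 := J_int hC hΛ 0
    rw [Int.cast_zero] at h1
    rw [h1, Complex.ofReal_re]
    linarith
  · intro r hr
    unfold rs
    rw [bv_eq hC hΛ r hr]
    have h1 := (J_spec hC hΛ r hr).1
    obtain ⟨m, n, -, h2⟩ := (hL _).1 h1
    have h3 : (J r).re = c + m * Op := by
      have h4 := congrArg Complex.re h2
      simp at h4
      linarith
    refine ⟨2 + 5 * m, ?_⟩
    rw [h3]
    push_cast
    linarith

lemma P_sub {ω : ℝ} (h : ∀ r : ℚ, r.den.Coprime 11 → ∃ k : ℤ, rs f11 r = k * ω) :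
    ∀ y ∈ P f11, ∃ k : ℤ, y = k * ω := by
  intro y hy
  refine AddSubgroup.closure_induction (p := fun y _ => ∃ k : ℤ, y = k * ω) ?_ ?_ ?_ ?_ hy
  · rintro x ⟨r, hr, rfl⟩
    exact h r hr
  · exact ⟨0, by simp⟩
  · rintro x y _ _ ⟨k, rfl⟩ ⟨m, rfl⟩
    exact ⟨k + m, by push_cast; ring⟩
  · rintro x _ ⟨k, rfl⟩
    exact ⟨-k, by push_cast; ring⟩

lemma good5 : GoodPrime (-13392) (-1080432) 5 := by
  refine ⟨by norm_num, ?_⟩
  norm_num

lemma count5 : pointCount (-13392) (-1080432) 5 = 4 := by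
  obtain ⟨-, -, -, m2, m3, m5, m11, mb⟩ := Pool.Agent.Y702.P.s_min11
  unfold pointCount
  rw [Eleven.points_card 5 (by norm_num) (by norm_num) (by norm_num), m5]

theorem main : (∃ y ∈ P f11, rs f11 0 = 2 * y) ∧ ¬ ∃ y ∈ P f11, rs f11 0 = 4 * y := by
  have hf := Eleven.isFormOf
  constructor
  · by_contra hmin
    obtain ⟨l, hl⟩ := exists_odd (finite_P hΔ11 hf) ⟨rs f11 0, rs_mem f11 0⟩ (by
      rintro ⟨y, hy⟩
      apply hmin
      refine ⟨y, y.2, ?_⟩
      have h1 : rs f11 0 = ((2 • y : P f11) : ℝ) := congrArg Subtype.val hy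
      rw [h1, two_smul, two_mul]
      rfl)
    have hl0 : Odd (ls l 0) := hl
    have hne : ls l 0 ≠ 0 := by
      intro h
      rw [h] at hl0
      exact absurd hl0 (by decide)
    have h1 := even_a (isGS hf l hne) hl0 (q := 5) (by norm_num) good5 (by norm_num)
    have h2 : (2 : ℤ) ∣ ((5 : ℕ) : ℤ) - pointCount (-13392) (-1080432) 5 := h1
    rw [count5] at h2
    norm_num at h2
  · rintro ⟨y, hy, h4⟩
    obtain ⟨ω, hω, h0, hr⟩ := values
    obtain ⟨k, rfl⟩ := P_sub hr y hy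
    rw [h0] at h4
    have h5 : (1 : ℝ) = ((2 * k : ℤ) : ℝ) := by
      push_cast
      have : ω * (1 - 2 * k) = 0 := by linarith
      rcases mul_eq_zero.1 this with h | h
      · exact absurd h hω.ne'
      · linarith
    have h6 : (1 : ℤ) = 2 * k := by exact_mod_cast h5
    omega

end Pool.Agent.Y17.GT.Eleven
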