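import Pool.Agent.Y17.GT.Main
import Pool.Agent.Y687.Sym
import Pool.Agent.TH940.Inst

/-!
The condition on the central value for the curve `X_0(14)`.
-/

set_option autoImplicit false

open Complex Filter Topology Set UpperHalfPlane MatrixGroups CongruenceSubgroup ZMod

namespace Pool.Agent.Y17.GT.Fourteen

open Pool.Agent.W263.BSD (pointCount GoodPrime IsLSeries)
open Pool.Agent.Y18.BSD
open Pool.Agent
open Pool.Agent.TH940 (Fr)
open Pool.Agent.W97.MT (form14 F II ff F_deriv F_QV iI const_of_deriv)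

/-- the newform of level 14 -/
theorem isFormOf : IsFormOf 5805 (-285714) 14 form14 where
  one := TH940.Inst.facts.2.1
  real := by
    intro n
    obtain ⟨c, hc⟩ := TH940.Inst.facts.1 n
    unfold co
    rw [hc, Complex.intCast_im]
  mul := fun m n h => TH940.Inst.mul m n h
  pow := fun p j hp => TH940.Inst.pow p j hp
  good := fun p hp h => TH940.Inst.good p hp (fun h2 => h (h2 ▸ by norm_num))
  bad := fun p hp h => TH940.Inst.bad p hp h
  fricke := by exact_mod_cast TH940.Inst.fricke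
  points := by
    intro p hp
    have h2 : p ≠ 2 := by
      rintro rfl
      exact hp.2 (by norm_num)
    have h3 : p ≠ 3 := by
      rintro rfl
      exact hp.2 (by norm_num)
    have h7 : p ≠ 7 := by
      rintro rfl
      exact hp.2 (by norm_num)
    refine ⟨fun hd => ?_, ?_⟩
    · have h1 : p ∣ 2 * 7 := by simpa using hd
      rcases (Nat.Prime.dvd_mul hp.1).1 h1 with h4 | h4
      · exact h2 ((Nat.prime_dvd_prime_iff_eq hp.1 Nat.prime_two).1 h4)
      · exact h7 ((Nat.prime_dvd_prime_iff_eq hp.1 (by norm_num)).1 h4)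
    · have h1 := TH940.Inst.points p hp.1 h2 h3
      unfold co pointCount
      push_cast at h1 ⊢
      exact h1

lemma hΔ14 : 4 * (5805 : ℤ) ^ 3 + 27 * (-285714 : ℤ) ^ 2 ≠ 0 := by norm_num

/-- the two primitives agree -/
lemma prim_eq {z : ℂ} (hz : 0 < z.im) : TH940.prim form14 z = F z := by
  obtain ⟨C, hC⟩ := const_of_deriv (g := fun z => TH940.prim form14 z - F z) fun z hz => by
    have e1 := TH940.prim_deriv form14 ⟨z, hz⟩
    have e2 := e1.sub (F_deriv hz)
    refine e2.congr_deriv ?_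
    have e3 : form14 ⟨z, hz⟩ = ff z := rfl
    rw [e3]
    ring
  have h1 := TH940.prim_line form14 0
  have h2 : Tendsto (fun T : ℝ => F (((0 : ℝ) : ℂ) + (T : ℂ) * Complex.I)) atTop (𝓝 0) := by
    refine F_QV.tendsto.comp ?_
    unfold iI
    rw [tendsto_comap_iff]
    refine tendsto_id.congr fun t => ?_
    simp
  have h3 := h1.sub h2
  rw [sub_zero] at h3
  have h4 : C = 0 := by
    refine tendsto_nhds_unique (tendsto_const_nhds.congr' ?_) h3
    filter_upwards [eventually_gt_atTop (0 : ℝ)] with T hT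
    exact (hC _ (by simpa using hT)).symm
  have h5 := hC z hz
  rw [h4] at h5
  exact sub_eq_zero.1 h5

lemma bv_eq (r : ℚ) (hr : r.den.Coprime 14) : bv form14 r = II r := by
  obtain ⟨w, hw, hfr0⟩ := isFormOf.fricke
  have hfr : Fr form14 (w : ℂ) := hfr0
  have h1 := bv_tendsto form14 hfr r hr
  have h2 := Y687.F_tendsto (a := r.num) (c := r.den) r.den_pos (by
    refine IsCoprime.mul_left ?_ ?_
    · exact (Nat.isCoprime_iff_coprime.2 hr).symm
    · rw [Int.isCoprime_iff_gcd_eq_one]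
      have h3 := r.reduced
      unfold Nat.Coprime at h3
      rw [Int.gcd_def, Int.natAbs_natCast]
      exact h3)
  rw [Rat.num_div_den] at h2
  have e : ((r.num : ℂ) / (r.den : ℂ)) = (r : ℂ) := by
    exact_mod_cast congrArg (fun x : ℚ => (x : ℂ)) (Rat.num_div_den r)
  rw [e] at h2
  refine tendsto_nhds_unique h1 (h2.congr' ?_)
  filter_upwards [self_mem_nhdsWithin] with y (hy : 0 < y)
  refine (prim_eq ?_).symm
  rw [show ((r : ℂ)) = (((r : ℝ)) : ℂ) by push_cast; rfl]
  simpa using hy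

lemma values : ∃ ω : ℝ, 0 < ω ∧ (∃ k : ℤ, Odd k ∧ rs form14 0 = k * ω) ∧
    ∀ r : ℚ, r.den.Coprime 14 → ∃ k : ℤ, rs form14 r = k * ω := by
  obtain ⟨s, Op, hOp, hs, hII⟩ := Y687.exists_symb
  refine ⟨Op / 3, by positivity, ⟨s 0, hs.odd0, ?_⟩, fun r hr => ⟨s r, ?_⟩⟩
  · unfold rs
    rw [bv_eq 0 (by simp)]
    have := hII 0
    linarith
  · unfold rs
    rw [bv_eq r hr]
    have := hII r
    linarith

lemma P_sub {ω : ℝ} (h : ∀ r : ℚ, r.den.Coprime 14 → ∃ k : ℤ, rs form14 r = k * ω) :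
    ∀ y ∈ P form14, ∃ k : ℤ, y = k * ω := by
  intro y hy
  refine AddSubgroup.closure_induction (p := fun y _ => ∃ k : ℤ, y = k * ω) ?_ ?_ ?_ ?_ hy
  · rintro x ⟨r, hr, rfl⟩
    exact h r hr
  · exact ⟨0, by simp⟩
  · rintro x y _ _ ⟨k, rfl⟩ ⟨m, rfl⟩
    exact ⟨k + m, by push_cast; ring⟩
  · rintro x _ ⟨k, rfl⟩
    exact ⟨-k, by push_cast; ring⟩

theorem main : ¬ ∃ y ∈ P form14, rs form14 0 = 2 * y := by
  rintro ⟨y, hy, h4⟩
  obtain ⟨ω, hω, ⟨m, hm, h0⟩, hr⟩ := values
  obtain ⟨k, rfl⟩ := P_sub hr y hy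
  rw [h0] at h4
  have h5 : (m : ℝ) = ((2 * k : ℤ) : ℝ) := by
    push_cast
    have : ω * (m - 2 * k) = 0 := by linarith
    rcases mul_eq_zero.1 this with h | h
    · exact absurd h hω.ne'
    · linarith
  have h6 : m = 2 * k := by exact_mod_cast h5
  obtain ⟨j, hj⟩ := hm
  omega

end Pool.Agent.Y17.GT.Fourteen
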