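import Pool.Agent.Y17.GT.Comb

/-!
The induction with one exceptional prime.
-/

set_option autoImplicit false
set_option linter.style.haveILetI false

open Finset

namespace Pool.Agent.Y17.GT

open Pool.Agent.Y687 (rr mem_rr SS s_congr SS_mul SS_class dvd_sum_of_orb sum_rr chi chi_mul chi_pm
  chi_inv chi_val chi_neg sv AA dpm AA_units ne_neg_unit jac_congr jac_neg V V_factor)

variable {N : ℕ} {G : ℕ → Prop} {s : ℚ → ℤ} {a : ℕ → ℤ}

/-- the Hecke eigenvalues are even when `s 0` is odd -/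
theorem even_a (h : GS N G s a) (h0 : Odd (s 0)) {q : ℕ} (hq : q.Prime) (hG : G q)
    (h4 : q % 4 = 1) : (2 : ℤ) ∣ a q := by
  have hS : ∀ l ∈ ({q} : Finset ℕ), l.Prime ∧ l % 4 = 1 := fun l hl => by
    rw [Finset.mem_singleton.1 hl]; exact ⟨hq, h4⟩
  obtain ⟨m, hm⟩ := AA_even h {q} (fun _ => 1) hS (Finset.singleton_nonempty q)
  obtain ⟨n, hn⟩ := AA_even h {q} (fun _ => -1) hS (Finset.singleton_nonempty q)
  have h1 := single h hq hG 1 (Or.inl rfl)
  have h2 := single h hq hG (-1) (Or.inr rfl)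
  rw [hm] at h1
  rw [hn] at h2
  obtain ⟨j, hj⟩ := h0
  rw [hj] at h1 h2
  exact ⟨m + n + 1 + 2 * j - a q * j, by linarith⟩

theorem sum_split (h : GS N G s a) (h0 : Odd (s 0))
    (hco : ∀ q, q.Prime → G q → Nat.Coprime N q) {p : ℕ} (hp : p.Prime) (hG : G p)
    (hp4 : p % 4 = 1) (hN : jacobiSym N p = 1) (h2 : (4 : ℤ) ∣ a p - 2) (β : ℤ)
    (hβ : SS s p p - (a p - 2) = 4 * β) (S : Finset ℕ) :
    (∀ q ∈ S, isII G a q) → p ∉ S →
      (2 : ℤ) ^ (S.card + 3) ∣ SS s (p * ∏ q ∈ S, q) (p * ∏ q ∈ S, q)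
        - 2 ^ S.card * (4 * β + (a p - 2 * jacobiSym p (∏ q ∈ S, q))) := by
  classical
  induction S using Finset.strongInduction with
  | H S ih =>
    intro hS hpS
    rcases S.eq_empty_or_nonempty with rfl | hne
    · simp only [Finset.prod_empty, mul_one, Finset.card_empty, pow_zero, one_mul,
        jacobiSym.one_right]
      exact ⟨0, by linear_combination hβ⟩
    obtain ⟨q1, hq1⟩ := hne
    have hX : ∀ T ⊆ S, ∃ x : ℤ, a p - 2 * jacobiSym p (∏ q ∈ T, q) = 4 * x := by
      intro T hT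
      have hg : Int.gcd (p : ℤ) ((∏ q ∈ T, q : ℕ) : ℤ) = 1 := by
        rw [Int.gcd_natCast_natCast]
        refine Nat.Coprime.prod_right fun q hq => ?_
        rw [Nat.coprime_primes hp (hS q (hT hq)).1]
        rintro rfl
        exact hpS (hT hq)
      obtain ⟨k, hk⟩ := h2
      rcases jacobiSym.eq_one_or_neg_one hg with h1 | h1
      · rw [h1]; exact ⟨k, by linear_combination hk⟩
      · rw [h1]; exact ⟨k + 1, by linear_combination hk⟩
    have hq1p : q1 ≠ p := fun h9 => hpS (h9 ▸ hq1)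
    obtain ⟨κ1, hκ1, hr1⟩ := rigid (N := N) (hS q1 hq1).1 (hS q1 hq1).2.2.1
      (jacN_of_four h h0 (hS q1 hq1) (hco q1 (hS q1 hq1).1 (hS q1 hq1).2.1)) 1 (Or.inl rfl)
    obtain ⟨κ2, hκ2, hr2⟩ := rigid (N := N) hp hp4 hN (-1) (Or.inr rfl)
    -- class signs
    set S' : Finset ℕ := insert p S with hS'
    have hSp : ∀ q ∈ S', q.Prime ∧ G q := by
      intro q hq
      rcases Finset.mem_insert.1 hq with rfl | hq
      · exact ⟨hp, hG⟩
      · exact ⟨(hS q hq).1, (hS q hq).2.1⟩
    set c : ℕ → ℤ := fun q => if q = p then - κ2 else if q = q1 then - κ1 else 1 with hc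
    have hcpm : ∀ q, c q = 1 ∨ c q = -1 := by
      intro q
      simp only [hc]
      split_ifs
      · rcases hκ2 with h3 | h3 <;> rw [h3] <;> norm_num
      · rcases hκ1 with h3 | h3 <;> rw [h3] <;> norm_num
      · exact Or.inl rfl
    have hcT : ∀ T : Finset ℕ, (∏ q ∈ T, c q) = 1 ∨ (∏ q ∈ T, c q) = -1 := by
      intro T
      induction T using Finset.induction_on with
      | empty => left; simp
      | insert q T hq ihT =>
        rw [Finset.prod_insert hq]
        rcases hcpm q with h3 | h3 <;> rcases ihT with h4 | h4 <;> rw [h3, h4] <;> norm_num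
    have h3 := SS_class (s := s) S' (fun q hq => (hSp q hq).1) c (fun q _ => hcpm q)
    have h4 : (4 : ℤ) ∣ AA s S' c := by
      refine AA_four h S' c ?_ (q1 := q1) (q2 := p) (Finset.mem_insert_of_mem hq1)
        (Finset.mem_insert_self _ _) ?_ ?_
      · intro q hq
        rcases Finset.mem_insert.1 hq with rfl | hq
        · exact ⟨hp, hp4, hN⟩
        · exact ⟨(hS q hq).1, (hS q hq).2.2.1,
            jacN_of_four h h0 (hS q hq) (hco q (hS q hq).1 (hS q hq).2.1)⟩
      · intro x hx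
        rw [hr1 x hx]
        simp only [hc, if_neg hq1p, if_true]
        rcases hκ1 with rfl | rfl <;> norm_num
      · intro x hx
        rw [hr2 x hx]
        simp only [hc, if_true]
        rcases hκ2 with rfl | rfl <;> norm_num
    obtain ⟨m, hm⟩ := h4
    have h5 : ∑ T ∈ S'.powerset, (∏ q ∈ T, c q) * SS s (∏ q ∈ T, q) (∏ q ∈ S', q)
        = 2 ^ (S.card + 3) * m := by
      have h6 : S'.card = S.card + 1 := Finset.card_insert_of_notMem hpS
      have h7 := h3
      rw [h6] at h7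
      have h8 : AA s S' c = 4 * m := hm
      unfold AA at h8
      rw [h7, h8]
      ring
    rw [hS', Finset.sum_powerset_insert hpS, ← hS'] at h5
    -- first kind of terms
    have t1 : ∀ T ∈ S.powerset, (2 : ℤ) ^ (S.card + 3) ∣
        (∏ q ∈ T, c q) * SS s (∏ q ∈ T, q) (∏ q ∈ S', q)
          - 2 ^ S.card * (a p - 2 * jacobiSym p (∏ q ∈ T, q)) := by
      intro T hT
      rw [Finset.mem_powerset] at hT
      rw [SS_sub h (hT.trans (Finset.subset_insert _ _)) hSp]
      have e1 : S' \ T = insert p (S \ T) := by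
        rw [hS', Finset.insert_sdiff_of_notMem _ (fun h9 => hpS (hT h9))]
      rw [e1, Finset.prod_insert (fun h9 => hpS (Finset.mem_sdiff.1 h9).1)]
      obtain ⟨x, hx⟩ := hX T hT
      have h6 : V S.card ((∏ q ∈ S \ T, (a q - 2 * jacobiSym q (∏ q ∈ T, q)))
          * SS s (∏ q ∈ T, q) (∏ q ∈ T, q)) := by
        rw [← Finset.card_sdiff_add_card_eq_card hT]
        refine V.mul (V.prod _ _ fun q hq => ?_) (L_inert h h0 T fun q hq => hS q (hT hq))
        rw [Finset.mem_sdiff] at hq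
        exact V_factor (hS q hq.1).2.2.2 (hS q hq.1).1 (fun p hp => (hS p (hT hp)).1) hq.2
      obtain ⟨k, hk⟩ := h6
      rw [hx]
      rcases hcT T with h7 | h7
      · rw [h7]
        refine ⟨k * x, ?_⟩
        rw [pow_add]
        linear_combination (4 * x) * hk
      · rw [h7]
        refine ⟨-(k + 1) * x, ?_⟩
        rw [pow_add]
        linear_combination (-4 * x) * hk
    have t2 : ∀ T ∈ S.powerset.erase S, (2 : ℤ) ^ (S.card + 3) ∣
        (∏ q ∈ insert p T, c q) * SS s (∏ q ∈ insert p T, q) (∏ q ∈ S', q)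
          - 2 ^ S.card * (4 * β + (a p - 2 * jacobiSym p (∏ q ∈ T, q))) := by
      intro T hT
      rw [Finset.mem_erase, Finset.mem_powerset] at hT
      have hpT : p ∉ T := fun h9 => hpS (hT.2 h9)
      rw [SS_sub h (Finset.insert_subset_insert p hT.2) hSp]
      have e1 : S' \ insert p T = S \ T := by
        rw [hS']
        ext q
        simp only [Finset.mem_sdiff, Finset.mem_insert, not_or]
        constructor
        · rintro ⟨h6 | h6, h7, h8⟩
          · exact absurd h6 h7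
          · exact ⟨h6, h8⟩
        · rintro ⟨h6, h7⟩
          exact ⟨Or.inr h6, fun h8 => hpS (h8 ▸ h6), h7⟩
      rw [e1]
      obtain ⟨x, hx⟩ := hX T hT.2
      have h6 : V (S \ T).card (∏ q ∈ S \ T, (a q - 2 * jacobiSym q (∏ q ∈ insert p T, q))) := by
        refine V.prod _ _ fun q hq => ?_
        rw [Finset.mem_sdiff] at hq
        refine V_factor (hS q hq.1).2.2.2 (hS q hq.1).1 ?_ ?_
        · intro l hl
          rcases Finset.mem_insert.1 hl with rfl | hl
          · exact hp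
          · exact (hS l (hT.2 hl)).1
        · intro h7
          rcases Finset.mem_insert.1 h7 with h8 | h8
          · exact hpS (h8 ▸ hq.1)
          · exact hq.2 h8
      have h7 := ih T (Finset.ssubset_iff_subset_ne.2 ⟨hT.2, hT.1⟩) (fun q hq => hS q (hT.2 hq)) hpT
      rw [← Finset.prod_insert (f := fun q => q) hpT] at h7
      obtain ⟨k, hk⟩ := h6
      obtain ⟨l, hl⟩ := h7
      rw [hx] at hl ⊢
      have h8 : (2 : ℤ) ^ (S \ T).card * 2 ^ T.card = 2 ^ S.card := by
        rw [← pow_add, Finset.card_sdiff_add_card_eq_card hT.2]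
      rw [hk]
      have h9 : SS s (∏ q ∈ insert p T, q) (∏ q ∈ insert p T, q)
          = 2 ^ T.card * (4 * β + 4 * x + 8 * l) := by
        rw [pow_add] at hl
        linear_combination hl
      rw [h9]
      rcases hcT (insert p T) with h10 | h10
      · rw [h10]
        refine ⟨k * (x + β) + 2 * k * l + l, ?_⟩
        rw [pow_add, ← h8]
        ring
      · rw [h10]
        refine ⟨-(k + 1) * (x + β) - 2 * k * l - l, ?_⟩
        rw [pow_add, ← h8]
        ring
    have s1 := Finset.dvd_sum t1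
    have s2 := Finset.dvd_sum t2
    rw [Finset.sum_sub_distrib] at s1 s2
    -- the sum of the second kind of terms, split
    have hcard : (S.powerset.erase S).card = 2 ^ S.card - 1 := by
      rw [Finset.card_erase_of_mem (Finset.mem_powerset_self S), Finset.card_powerset]
    have s4 : ∑ T ∈ S.powerset.erase S, (2 : ℤ) ^ S.card *
        (4 * β + (a p - 2 * jacobiSym p (∏ q ∈ T, q)))
        = (2 ^ S.card - 1) * (2 ^ S.card * (4 * β)) + ∑ T ∈ S.powerset.erase S,
        2 ^ S.card * (a p - 2 * jacobiSym p (∏ q ∈ T, q)) := by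
      have e : ∀ T ∈ S.powerset.erase S, (2 : ℤ) ^ S.card *
        (4 * β + (a p - 2 * jacobiSym p (∏ q ∈ T, q))) = 2 ^ S.card * (4 * β) +
          2 ^ S.card * (a p - 2 * jacobiSym p (∏ q ∈ T, q)) := fun T _ => by ring
      rw [Finset.sum_congr rfl e, Finset.sum_add_distrib, Finset.sum_const, hcard, nsmul_eq_mul,
        Nat.cast_sub Nat.one_le_two_pow]
      push_cast
      ring
    rw [s4] at s2
    have s3 : (2 : ℤ) ^ (S.card + 3) ∣ 2 * ∑ T ∈ S.powerset.erase S,
        2 ^ S.card * (a p - 2 * jacobiSym p (∏ q ∈ T, q)) := by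
      rw [Finset.mul_sum]
      refine Finset.dvd_sum fun T hT => ?_
      rw [Finset.mem_erase, Finset.mem_powerset] at hT
      obtain ⟨x, hx⟩ := hX T hT.2
      rw [hx]
      exact ⟨x, by rw [pow_add]; ring⟩
    rw [← Finset.add_sum_erase S.powerset (fun T => (∏ q ∈ insert p T, c q) *
      SS s (∏ q ∈ insert p T, q) (∏ q ∈ S', q)) (Finset.mem_powerset_self S)] at h5
    rw [← Finset.add_sum_erase S.powerset (fun T => (2 : ℤ) ^ S.card *
      (a p - 2 * jacobiSym p (∏ q ∈ T, q))) (Finset.mem_powerset_self S)] at s1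
    obtain ⟨x, hx⟩ := hX S (Finset.Subset.refl _)
    obtain ⟨u1, hu1⟩ := s1
    obtain ⟨u2, hu2⟩ := s2
    obtain ⟨u3, hu3⟩ := s3
    have e2 : SS s (p * ∏ q ∈ S, q) (p * ∏ q ∈ S, q)
      = SS s (∏ q ∈ insert p S, q) (∏ q ∈ S', q) := by
      rw [hS', Finset.prod_insert hpS]
    rw [e2]
    rw [hx] at hu1 ⊢
    -- the cardinality is positive
    obtain ⟨d, hd⟩ : ∃ d : ℕ, S.card = d + 1 :=
      ⟨S.card - 1, by have := Finset.card_pos.2 ⟨q1, hq1⟩; omega⟩
    have e3 : (2 : ℤ) ^ (S.card + 3) = 8 * 2 ^ S.card := by rw [pow_add]; ring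
    have e4 : (2 : ℤ) ^ S.card * (2 ^ S.card * 4) = 2 ^ (S.card + 3) * 2 ^ d := by
      rw [e3]
      nth_rewrite 1 [hd]
      rw [pow_succ]
      ring
    rcases hcT (insert p S) with h10 | h10
    · rw [h10] at h5
      refine ⟨m - u1 - u2 - u3 - x - β * 2 ^ d, ?_⟩
      linear_combination h5 - hu1 - hu2 - hu3 + x * e3 - β * e4
    · rw [h10] at h5
      refine ⟨-m + u1 + u2 + u3 + β * 2 ^ d - β, ?_⟩
      linear_combination -h5 + hu1 + hu2 + hu3 + β * e4 - β * e3

/-- main combinatorial theorem -/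
theorem main_comb (h : GS N G s a) (h0 : Odd (s 0))
    (hco : ∀ q, q.Prime → G q → Nat.Coprime N q) {p : ℕ} (hp : p.Prime) (hG : G p)
    (hp4 : p % 4 = 1) (hN : jacobiSym N p = 1) (h2 : (4 : ℤ) ∣ a p - 2) :
    ∃ ε : ℤ, (ε = 1 ∨ ε = -1) ∧ (p % 8 = 1 → (ε = 1 ↔ ¬ (8 : ℤ) ∣ a p - 2)) ∧
      ∀ S : Finset ℕ, (∀ q ∈ S, isII G a q) → jacobiSym p (∏ q ∈ S, q) = ε →
        SS s (p * ∏ q ∈ S, q) (p * ∏ q ∈ S, q) ≠ 0 := by
  obtain ⟨⟨β, hβ⟩, hb8⟩ := base h h0 hp hG hp4 hN h2
  obtain ⟨k, hk⟩ := h2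
  have key : ∀ ε : ℤ, ¬ (8 : ℤ) ∣ 4 * β + (a p - 2 * ε) →
      ∀ S : Finset ℕ, (∀ q ∈ S, isII G a q) → jacobiSym p (∏ q ∈ S, q) = ε →
        SS s (p * ∏ q ∈ S, q) (p * ∏ q ∈ S, q) ≠ 0 := by
    intro ε hε S hS hj hz
    have hpS : p ∉ S := by
      intro h9
      have h10 := (hS p h9).2.2.2
      omega
    have h1 := sum_split h h0 hco hp hG hp4 hN ⟨k, hk⟩ β hβ S hS hpS
    rw [hz, zero_sub, dvd_neg, pow_add, hj] at h1
    have h3 := Int.dvd_of_mul_dvd_mul_left (by positivity) h1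
    norm_num at h3
    exact hε h3
  rcases Int.even_or_odd (β + k) with ⟨j, hj⟩ | ⟨j, hj⟩
  · refine ⟨-1, Or.inr rfl, fun h8 => ?_, key (-1) (by omega)⟩
    obtain ⟨m, hm⟩ := hb8 h8
    constructor
    · intro h9; norm_num at h9
    · intro h9
      exfalso
      apply h9
      omega
  · refine ⟨1, Or.inl rfl, fun h8 => ?_, key 1 (by omega)⟩
    obtain ⟨m, hm⟩ := hb8 h8
    constructor
    · intro _ h9
      omega
    · intro _; rfl

end Pool.Agent.Y17.GT
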