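import Pool.Agent.Y17.GT.Comb

/-!
The case of a central value which is exactly divisible by two.
-/

set_option autoImplicit false
set_option linter.style.haveILetI false

open Finset

namespace Pool.Agent.Y17.GT

open Pool.Agent.Y687 (rr mem_rr SS s_congr SS_mul SS_class dvd_sum_of_orb sum_rr chi chi_mul chi_pm
  chi_inv chi_val chi_neg sv AA dpm AA_units ne_neg_unit jac_congr jac_neg V V_factor)

variable {N : ℕ} {G : ℕ → Prop} {s : ℚ → ℤ} {a : ℕ → ℤ}

/-- the twisted sum vanishes when the level is not a square -/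
theorem SS_zero_of_neg (h : GS N G s a) {q : ℕ} (hqp : q.Prime)
    (hco : Nat.Coprime N q) (h1 : jacobiSym N q = -1) : SS s q q = 0 := by
  classical
  haveI : NeZero q := ⟨hqp.ne_zero⟩
  haveI : Fact q.Prime := ⟨hqp⟩
  obtain ⟨e, hev⟩ : ∃ e : (ZMod q)ˣ, (e : ZMod q) = N :=
    ⟨ZMod.unitOfCoprime N hco, by rw [ZMod.coe_unitOfCoprime]⟩
  have e1 : SS s q q = ∑ u : (ZMod q)ˣ, chi q u * sv s u := by
    unfold SS
    rw [sum_rr (M := q) (fun n => jacobiSym (n : ℤ) q * s ((n : ℚ) / q))]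
    rfl
  have e2 : ∑ u : (ZMod q)ˣ, chi q u * sv s u = ∑ u : (ZMod q)ˣ, -(chi q u * sv s u) := by
    refine Finset.sum_bij (fun u _ => (e * u)⁻¹) (fun _ _ => Finset.mem_univ _) ?_ ?_ ?_
    · intro u _ v _ huv
      exact mul_left_cancel (inv_injective huv)
    · intro v _
      refine ⟨(e * v)⁻¹, Finset.mem_univ _, ?_⟩
      rw [mul_inv_rev, mul_inv_rev, mul_inv_rev]
      simp
    · intro u _
      have h2 := sv_inv h e u (e * u)⁻¹ hev (mul_inv_cancel _)
      rw [h2, chi_inv dvd_rfl, chi_mul dvd_rfl]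
      have h3 : chi q e = -1 := by
        rw [chi_val dvd_rfl e N (by rw [hev]; norm_num)]
        exact h1
      rw [h3]
      ring
  rw [Finset.sum_neg_distrib] at e2
  rw [e1]
  linarith

/-- the primes used when the central value is exactly divisible by two -/
def adm (N : ℕ) (G : ℕ → Prop) (a : ℕ → ℤ) (q : ℕ) : Prop :=
  q.Prime ∧ G q ∧ q % 4 = 1 ∧ (Odd (a q) ∨ ((4 : ℤ) ∣ a q ∧ jacobiSym N q = 1))

open Classical in
/-- the weight of a prime -/
noncomputable def wt (a : ℕ → ℤ) (q : ℕ) : ℕ := if Odd (a q) then 0 else 1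

theorem wt_le (q : ℕ) : wt a q ≤ 1 := by
  unfold wt; split_ifs <;> norm_num

theorem jacN_adm (h : GS N G s a) {u : ℤ} (h0 : s 0 = 2 * (2 * u + 1))
    (hco : ∀ q, q.Prime → G q → Nat.Coprime N q) {q : ℕ} (hq : adm N G a q) :
    jacobiSym N q = 1 := by
  obtain ⟨hqp, hG, h4, hd | hd⟩ := hq
  · have hcoq := hco q hqp hG
    rcases jacobiSym.eq_one_or_neg_one (a := (N : ℤ)) (b := q) (by
      rw [Int.gcd_natCast_natCast]; exact hcoq) with h1 | h1
    · exact h1
    · exfalso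
      have hz := SS_zero_of_neg h hqp hcoq h1
      have h2 := single h hqp hG 1 (Or.inl rfl)
      rw [hz] at h2
      obtain ⟨m, hm⟩ := AA_even h {q} (fun _ => 1) (fun l hl => by
        rw [Finset.mem_singleton.1 hl]; exact ⟨hqp, h4⟩) (Finset.singleton_nonempty q)
      obtain ⟨k, hk⟩ := hd
      rw [hm, h0, hk] at h2
      have h3 : 2 * ((2 * k + 1 - 2) * (2 * u + 1)) = 2 * (2 * m) := by linarith
      have h4 : (2 * k + 1 - 2) * (2 * u + 1) = 2 * m := by linarith
      have h5 : 2 * (2 * k * u + k - u - m) = 1 := by linarith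
      omega
  · exact hd.2

theorem V_wt (a : ℕ → ℤ) {q : ℕ} (hq : adm N G a q) {T : Finset ℕ} (hT : ∀ p ∈ T, p.Prime)
    (hqT : q ∉ T) : V (wt a q) (a q - 2 * jacobiSym q (∏ q ∈ T, q)) := by
  obtain ⟨hqp, hG, h4, hd⟩ := hq
  by_cases ho : Odd (a q)
  · unfold wt
    rw [if_pos ho]
    obtain ⟨k, hk⟩ := ho
    exact ⟨k - jacobiSym q (∏ q ∈ T, q), by rw [hk]; ring⟩
  · unfold wt
    rw [if_neg ho]
    exact V_factor (hd.resolve_left ho).1 hqp hT hqT

theorem V_prod' {ι : Type*} (U : Finset ι) (f : ι → ℤ) (w : ι → ℕ) (h : ∀ i ∈ U, V (w i) (f i)) :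
    V (∑ i ∈ U, w i) (∏ i ∈ U, f i) := by
  classical
  induction U using Finset.induction_on with
  | empty => exact ⟨0, by simp⟩
  | insert i U hi ih =>
    rw [Finset.prod_insert hi, Finset.sum_insert hi]
    exact (h i (Finset.mem_insert_self _ _)).mul
      (ih fun j hj => h j (Finset.mem_insert_of_mem hj))

/-- a parity lemma -/
theorem even_sum (e : ℕ → ℤ) {S : Finset ℕ} (hS : 2 ≤ S.card) :
    (2 : ℤ) ∣ ∑ T ∈ S.powerset, (1 + ∑ q ∈ T, e q) := by
  classical
  obtain ⟨q, hq⟩ : S.Nonempty := Finset.card_pos.1 (by omega)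
  obtain ⟨S0, hS0, rfl⟩ : ∃ S0 : Finset ℕ, q ∉ S0 ∧ S = insert q S0 :=
    ⟨S.erase q, Finset.notMem_erase _ _, (Finset.insert_erase hq).symm⟩
  rw [Finset.card_insert_of_notMem hS0] at hS
  rw [Finset.sum_powerset_insert hS0, ← Finset.sum_add_distrib]
  have e1 : ∀ T ∈ S0.powerset, (1 + ∑ q ∈ T, e q) + (1 + ∑ q ∈ insert q T, e q)
      = 2 * (1 + ∑ q ∈ T, e q) + e q := by
    intro T hT
    rw [Finset.mem_powerset] at hT
    rw [Finset.sum_insert (fun h => hS0 (hT h))]
    ring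
  rw [Finset.sum_congr rfl e1, Finset.sum_add_distrib, Finset.sum_const, Finset.card_powerset,
    ← Finset.mul_sum]
  obtain ⟨d, hd⟩ : ∃ d, S0.card = d + 1 := ⟨S0.card - 1, by omega⟩
  rw [hd, nsmul_eq_mul]
  push_cast
  exact dvd_add (Dvd.intro _ rfl) ⟨2 ^ d * e q, by rw [pow_succ]; ring⟩

/-- the correction term of a prime -/
theorem exists_e (h : GS N G s a) {u : ℤ} (h0 : s 0 = 2 * (2 * u + 1))
    {q : ℕ} (hq : adm N G a q) :
    ∃ e : ℤ, (2 : ℤ) ^ (wt a q + 2) ∣ SS s q q - 2 ^ (wt a q + 1) * (1 + e) ∧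
      ((Odd (a q) ∨ q % 8 = 1) → e = 0) := by
  obtain ⟨hqp, hG, h4, hd⟩ := hq
  have hS : ∀ l ∈ ({q} : Finset ℕ), l.Prime ∧ l % 4 = 1 := fun l hl => by
    rw [Finset.mem_singleton.1 hl]; exact ⟨hqp, h4⟩
  obtain ⟨m, hm⟩ := AA_even h {q} (fun _ => 1) hS (Finset.singleton_nonempty q)
  have h2 := single h hqp hG 1 (Or.inl rfl)
  rw [hm, h0] at h2
  by_cases ho : Odd (a q)
  · unfold wt
    rw [if_pos ho]
    obtain ⟨k, hk⟩ := ho
    rw [hk] at h2
    refine ⟨0, ⟨m - 2 * k * u - k + u, ?_⟩, fun _ => rfl⟩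
    norm_num
    linear_combination h2
  · have hd' := hd.resolve_left ho
    unfold wt
    rw [if_neg ho]
    obtain ⟨⟨k, hk⟩, hN⟩ := hd'
    rw [hk] at h2
    -- four divides the sum
    have h5 : SS s q q = 4 * (m - (2 * k - 1) * (2 * u + 1)) := by linear_combination h2
    by_cases h8 : q % 8 = 1
    · obtain ⟨κ, hκ, hr⟩ := rigid8 (N := N) hqp h8 hN
      obtain ⟨m', hm'⟩ := AA_four h {q} (fun _ => -κ) (fun l hl => by
        rw [Finset.mem_singleton.1 hl]; exact ⟨hqp, h4, hN⟩) (Finset.mem_singleton_self q)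
        (Finset.mem_singleton_self q)
        (fun x hx => by
          rw [hr 1 (Or.inl rfl) x hx]
          rcases hκ with rfl | rfl <;> norm_num)
        (fun x hx => by
          rw [hr (-1) (Or.inr rfl) x hx]
          rcases hκ with rfl | rfl <;> norm_num)
      have h3 := single h hqp hG (-κ) (by rcases hκ with rfl | rfl <;> norm_num)
      rw [hm', h0, hk] at h3
      refine ⟨0, ?_, fun _ => rfl⟩
      rcases hκ with rfl | rfl
      · refine ⟨-m' + 2 * k * u + k - u - 1, ?_⟩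
        norm_num
        linear_combination -h3
      · refine ⟨m' - 2 * k * u - k + u, ?_⟩
        norm_num
        linear_combination h3
    · refine ⟨(m - (2 * k - 1) * (2 * u + 1)) - 1, ⟨0, ?_⟩, fun h9 => absurd (h9.resolve_left ho) h8⟩
      rw [h5]
      norm_num

theorem sum_two (h : GS N G s a) {u : ℤ} (h0 : s 0 = 2 * (2 * u + 1))
    (hco : ∀ q, q.Prime → G q → Nat.Coprime N q) (e : ℕ → ℤ)
    (he : ∀ q, adm N G a q → (2 : ℤ) ^ (wt a q + 2) ∣ SS s q q - 2 ^ (wt a q + 1) * (1 + e q))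
    (S : Finset ℕ) :
    (∀ q ∈ S, adm N G a q) →
      (2 : ℤ) ^ (∑ q ∈ S, wt a q + 2) ∣ SS s (∏ q ∈ S, q) (∏ q ∈ S, q)
        - 2 ^ (∑ q ∈ S, wt a q + 1) * (1 + ∑ q ∈ S, e q) := by
  classical
  induction S using Finset.strongInduction with
  | H S ih =>
    intro hS
    rcases Nat.lt_or_ge S.card 2 with hc | hc
    · rcases Nat.lt_or_ge S.card 1 with hc' | hc'
      · have : S = ∅ := Finset.card_eq_zero.1 (by omega)
        subst this
        simp only [Finset.prod_empty, Finset.sum_empty]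
        rw [SS_one_one, h0]
        exact ⟨u, by ring⟩
      · obtain ⟨q, rfl⟩ := Finset.card_eq_one.1 (by omega : S.card = 1)
        simp only [Finset.prod_singleton, Finset.sum_singleton]
        exact he q (hS q (Finset.mem_singleton_self q))
    · obtain ⟨q1, hq1, q2, hq2, h12⟩ := Finset.one_lt_card.1 (by omega : 1 < S.card)
      have hSp : ∀ q ∈ S, q.Prime ∧ G q := fun q hq => ⟨(hS q hq).1, (hS q hq).2.1⟩
      obtain ⟨κ1, hκ1, hr1⟩ := rigid (N := N) (hS q1 hq1).1 (hS q1 hq1).2.2.1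
        (jacN_adm h h0 hco (hS q1 hq1)) 1 (Or.inl rfl)
      obtain ⟨κ2, hκ2, hr2⟩ := rigid (N := N) (hS q2 hq2).1 (hS q2 hq2).2.2.1
        (jacN_adm h h0 hco (hS q2 hq2)) (-1) (Or.inr rfl)
      set c : ℕ → ℤ := fun q => if q = q2 then - κ2 else if q = q1 then - κ1 else 1 with hcdef
      have hcpm : ∀ q, c q = 1 ∨ c q = -1 := by
        intro q
        simp only [hcdef]
        split_ifs
        · rcases hκ2 with h3 | h3 <;> rw [h3] <;> norm_num
        · rcases hκ1 with h3 | h3 <;> rw [h3] <;> norm_num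
        · exact Or.inl rfl
      have hcT : ∀ T : Finset ℕ, (∏ q ∈ T, c q) = 1 ∨ (∏ q ∈ T, c q) = -1 := by
        intro T
        induction T using Finset.induction_on with
        | empty => left; simp
        | insert q T hq ihT =>
          rw [Finset.prod_insert hq]
          rcases hcpm q with h3 | h3 <;> rcases ihT with h4 | h4 <;> rw [h3, h4] <;> norm_num
      have h3 := SS_class (s := s) S (fun q hq => (hSp q hq).1) c (fun q _ => hcpm q)
      have h4 : (4 : ℤ) ∣ AA s S c := by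
        refine AA_four h S c (fun q hq => ⟨(hS q hq).1, (hS q hq).2.2.1, jacN_adm h h0 hco (hS q hq)⟩)
          (q1 := q1) (q2 := q2) hq1 hq2 ?_ ?_
        · intro x hx
          rw [hr1 x hx]
          simp only [hcdef, if_neg h12, if_true]
          rcases hκ1 with rfl | rfl <;> norm_num
        · intro x hx
          rw [hr2 x hx]
          simp only [hcdef, if_true]
          rcases hκ2 with rfl | rfl <;> norm_num
      obtain ⟨m, hm⟩ := h4
      have hwle : ∑ q ∈ S, wt a q ≤ S.card := by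
        have := Finset.sum_le_card_nsmul S (wt a) 1 (fun q _ => wt_le q)
        simpa using this
      obtain ⟨d, hd⟩ := Nat.exists_eq_add_of_le hwle
      have h5 : ∑ T ∈ S.powerset, (∏ q ∈ T, c q) * SS s (∏ q ∈ T, q) (∏ q ∈ S, q)
          = 2 ^ (∑ q ∈ S, wt a q + 2) * (2 ^ d * m) := by
        have h8 : AA s S c = 4 * m := hm
        unfold AA at h8
        rw [h3, h8, hd]
        ring
      have t1 : ∀ T ∈ S.powerset.erase S, (2 : ℤ) ^ (∑ q ∈ S, wt a q + 2) ∣
          (∏ q ∈ T, c q) * SS s (∏ q ∈ T, q) (∏ q ∈ S, q)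
            - 2 ^ (∑ q ∈ S, wt a q + 1) * (1 + ∑ q ∈ T, e q) := by
        intro T hT
        rw [Finset.mem_erase, Finset.mem_powerset] at hT
        rw [SS_sub h hT.2 hSp]
        have h6 : V (∑ q ∈ S \ T, wt a q) (∏ q ∈ S \ T, (a q - 2 * jacobiSym q (∏ q ∈ T, q))) := by
          refine V_prod' _ _ _ fun q hq => ?_
          rw [Finset.mem_sdiff] at hq
          exact V_wt a (hS q hq.1) (fun p hp => (hS p (hT.2 hp)).1) hq.2
        have h7 := ih T (Finset.ssubset_iff_subset_ne.2 ⟨hT.2, hT.1⟩) (fun q hq => hS q (hT.2 hq))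
        obtain ⟨k, hk⟩ := h6
        obtain ⟨l, hl⟩ := h7
        have h8 : (2 : ℤ) ^ (∑ q ∈ S, wt a q) = 2 ^ (∑ q ∈ S \ T, wt a q) * 2 ^ (∑ q ∈ T, wt a q) := by
          rw [← pow_add, Finset.sum_sdiff hT.2]
        have h9 : SS s (∏ q ∈ T, q) (∏ q ∈ T, q)
            = 2 ^ (∑ q ∈ T, wt a q) * (2 * (1 + ∑ q ∈ T, e q) + 4 * l) := by
          rw [pow_add, pow_add] at hl
          linear_combination hl
        rw [hk, h9, pow_add, pow_add, h8]
        rcases hcT T with h10 | h10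
        · rw [h10]
          exact ⟨k * (1 + ∑ q ∈ T, e q) + 2 * k * l + l, by ring⟩
        · rw [h10]
          exact ⟨-(k + 1) * (1 + ∑ q ∈ T, e q) - 2 * k * l - l, by ring⟩
      have s1 := Finset.dvd_sum t1
      rw [Finset.sum_sub_distrib, ← Finset.mul_sum] at s1
      obtain ⟨u1, hu1⟩ := s1
      obtain ⟨u2, hu2⟩ := even_sum e hc
      rw [← Finset.add_sum_erase S.powerset (fun T => (∏ q ∈ T, c q) *
        SS s (∏ q ∈ T, q) (∏ q ∈ S, q)) (Finset.mem_powerset_self S)] at h5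
      rw [← Finset.add_sum_erase S.powerset (fun T => (1 + ∑ q ∈ T, e q))
        (Finset.mem_powerset_self S)] at hu2
      have e3 : (2 : ℤ) ^ (∑ q ∈ S, wt a q + 2) = 2 * 2 ^ (∑ q ∈ S, wt a q + 1) := by
        rw [show ∑ q ∈ S, wt a q + 2 = (∑ q ∈ S, wt a q + 1) + 1 by ring, pow_succ]; ring
      have hu2' := congrArg (fun x : ℤ => (2 : ℤ) ^ (∑ q ∈ S, wt a q + 1) * x) hu2
      beta_reduce at hu2'
      rcases hcT S with h10 | h10
      · rw [h10] at h5
        refine ⟨2 ^ d * m - u1 - u2, ?_⟩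
        linear_combination h5 - hu1 - hu2' + u2 * e3
      · rw [h10] at h5
        refine ⟨-(2 ^ d * m) + u1 + u2 - (1 + ∑ q ∈ S, e q), ?_⟩
        linear_combination -h5 + hu1 + hu2' - u2 * e3 - (1 + ∑ q ∈ S, e q) * e3

/-- main combinatorial theorem, second case -/
theorem two_comb (h : GS N G s a) {u : ℤ} (h0 : s 0 = 2 * (2 * u + 1))
    (hco : ∀ q, q.Prime → G q → Nat.Coprime N q) :
    ∃ ψ : ℕ → ℤ, (∀ q, ψ q = 1 ∨ ψ q = -1) ∧ (∀ q, (Odd (a q) ∨ q % 8 = 1) → ψ q = 1) ∧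
      ∀ S : Finset ℕ, (∀ q ∈ S, adm N G a q) → ∏ q ∈ S, ψ q = 1 →
        SS s (∏ q ∈ S, q) (∏ q ∈ S, q) ≠ 0 := by
  classical
  have hex : ∀ q, ∃ e : ℤ, adm N G a q → ((2 : ℤ) ^ (wt a q + 2) ∣
      SS s q q - 2 ^ (wt a q + 1) * (1 + e) ∧ ((Odd (a q) ∨ q % 8 = 1) → e = 0)) := by
    intro q
    by_cases hq : adm N G a q
    · obtain ⟨e, he⟩ := exists_e h h0 hq
      exact ⟨e, fun _ => he⟩
    · exact ⟨0, fun h => absurd h hq⟩
  choose e he using hex
  refine ⟨fun q => if adm N G a q ∧ Odd (e q) then -1 else 1, ?_, ?_, ?_⟩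
  · intro q
    dsimp only
    split_ifs
    · exact Or.inr rfl
    · exact Or.inl rfl
  · intro q hq
    dsimp only
    rw [if_neg]
    rintro ⟨h1, h2⟩
    rw [(he q h1).2 hq] at h2
    exact absurd h2 (by decide)
  · intro S hS hprod hz
    have h1 := sum_two h h0 hco e (fun q hq => (he q hq).1) S hS
    rw [hz, zero_sub, dvd_neg, show ∑ q ∈ S, wt a q + 2 = (∑ q ∈ S, wt a q + 1) + 1 by ring,
      pow_succ] at h1
    have h3 := Int.dvd_of_mul_dvd_mul_left (by positivity) h1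
    -- the parity of the sum
    have h4 : ∀ T : Finset ℕ, T ⊆ S →
        ((∏ q ∈ T, (if adm N G a q ∧ Odd (e q) then (-1 : ℤ) else 1)) = 1 ↔ Even (∑ q ∈ T, e q)) ∧
        ((∏ q ∈ T, (if adm N G a q ∧ Odd (e q) then (-1 : ℤ) else 1)) = 1 ∨
        (∏ q ∈ T, (if adm N G a q ∧ Odd (e q) then (-1 : ℤ) else 1)) = -1) := by
      intro T
      induction T using Finset.induction_on with
      | empty => intro _; simp
      | insert q T hq ihT =>
        intro hT
        obtain ⟨i1, i2⟩ := ihT ((Finset.subset_insert _ _).trans hT)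
        have hqS := hS q (hT (Finset.mem_insert_self _ _))
        rw [Finset.prod_insert hq, Finset.sum_insert hq]
        by_cases ho : Odd (e q)
        · rw [if_pos ⟨hqS, ho⟩, Int.even_add, ← i1]
          have ho' : ¬ Even (e q) := Int.not_even_iff_odd.2 ho
          rcases i2 with i2 | i2 <;> rw [i2] <;> simp [ho']
        · rw [if_neg (fun h => ho h.2), Int.even_add, ← i1, one_mul]
          have ho' : Even (e q) := Int.not_odd_iff_even.1 ho
          exact ⟨by simp [ho'], i2⟩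
    have h5 := (h4 S (Finset.Subset.refl _)).1.1 hprod
    obtain ⟨t, ht⟩ := h5
    obtain ⟨r, hr⟩ := h3
    omega

end Pool.Agent.Y17.GT
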