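import Pool.Agent.Y17.GT.Sym
import Pool.Agent.Y17.GT.Split
import Pool.Agent.Y17.GT.Two

/-!
Twists by primes with small 2-part, assembled.
-/

set_option autoImplicit false

open Complex Filter Topology Set UpperHalfPlane MatrixGroups CongruenceSubgroup ZMod

namespace Pool.Agent.Y17.GT

open Pool.Agent.W263.BSD (pointCount GoodPrime IsLSeries)
open Pool.Agent.Y18.BSD

variable {N : ℕ} [NeZero N] {a b : ℤ} {f : CuspForm (Gamma0 N : Subgroup (GL (Fin 2) ℝ)) 2}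

lemma disc_eq {S : Finset ℕ} (hS : ∀ q ∈ S, q % 4 = 1) : disc S = ((∏ q ∈ S, q : ℕ) : ℤ) := by
  unfold disc
  push_cast
  refine Finset.prod_congr rfl fun q hq => ?_
  have h1 := hS q hq
  have h2 : Even ((q - 1) / 2) := ⟨(q - 1) / 4, by omega⟩
  rw [h2.neg_one_pow, one_mul]

lemma coprime_of (hf : IsFormOf a b N f) : ∀ q : ℕ, q.Prime → GoodPrime a b q → Nat.Coprime N q := by
  intro q hq hG
  exact (Nat.Coprime.symm ((Nat.Prime.coprime_iff_not_dvd hq).2 (hf.points q hG).1))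

theorem main_one (hΔ : 4 * a ^ 3 + 27 * b ^ 2 ≠ 0) (hf : IsFormOf a b N f)
    (hmin : ¬ ∃ y ∈ P f, rs f 0 = 2 * y) {p : ℕ} (hG : GoodPrime a b p) (hp4 : p % 4 = 1)
    (hN : jacobiSym N p = 1) (h4 : 4 ∣ pointCount a b p + 1) :
    ∃ ε : ℤ, (ε = 1 ∨ ε = -1) ∧ (p % 8 = 1 → (ε = 1 ↔ ¬ 8 ∣ pointCount a b p + 1)) ∧
      ∀ S : Finset ℕ, (∀ q ∈ S, GoodPrime a b q ∧ q % 4 = 1 ∧ ¬ 4 ∣ pointCount a b q + 1) →
        jacobiSym p (∏ q ∈ S, q) = ε →
        RankZero (a * ((p * ∏ q ∈ S, q : ℕ) : ℤ) ^ 2) (b * ((p * ∏ q ∈ S, q : ℕ) : ℤ) ^ 3) := by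
  classical
  obtain ⟨l, hl⟩ := exists_odd (finite_P hΔ hf) ⟨rs f 0, rs_mem f 0⟩ (by
    rintro ⟨y, hy⟩
    apply hmin
    refine ⟨y, y.2, ?_⟩
    have h1 : rs f 0 = ((2 • y : P f) : ℝ) := congrArg Subtype.val hy
    rw [h1, two_smul, two_mul]
    rfl)
  have hl0 : Odd (ls l 0) := hl
  have hne : ls l 0 ≠ 0 := by
    intro h
    rw [h] at hl0
    exact absurd hl0 (by decide)
  have hGS := isGS hf l hne
  obtain ⟨ε, hε, h8, hmain⟩ := main_comb hGS hl0 (coprime_of hf) hG.1 hG hp4 hN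
    (by show (4 : ℤ) ∣ ((p : ℤ) - pointCount a b p) - 2; omega)
  refine ⟨ε, hε, fun hp8 => ?_, fun S hS hj => ?_⟩
  · rw [h8 hp8]
    show ¬ (8 : ℤ) ∣ ((p : ℤ) - pointCount a b p) - 2 ↔ _
    omega
  · have hS' : ∀ q ∈ S, isII (GoodPrime a b) (fun q => (q : ℤ) - pointCount a b q) q := by
      intro q hq
      obtain ⟨hG', h4', hn⟩ := hS q hq
      refine ⟨hG'.1, hG', h4', ?_⟩
      have he := even_a hGS hl0 hG'.1 hG' h4'
      show (4 : ℤ) ∣ (q : ℤ) - pointCount a b q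
      have he' : (2 : ℤ) ∣ (q : ℤ) - pointCount a b q := he
      omega
    have hpS : p ∉ S := fun h => (hS p h).2.2 h4
    have h1 := hmain S hS' hj
    rw [← Finset.prod_insert (f := fun q => q) hpS] at h1
    have hT : ∀ q ∈ insert p S, GoodPrime a b q := by
      intro q hq
      rcases Finset.mem_insert.1 hq with rfl | hq
      · exact hG
      · exact (hS q hq).1
    have h2 := rankZero_of hΔ hf l hT h1
    rw [disc_eq (by
      intro q hq
      rcases Finset.mem_insert.1 hq with rfl | hq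
      · exact hp4
      · exact (hS q hq).2.1), Finset.prod_insert hpS] at h2
    exact h2

theorem main_two (hΔ : 4 * a ^ 3 + 27 * b ^ 2 ≠ 0) (hf : IsFormOf a b N f)
    (h2 : ∃ y ∈ P f, rs f 0 = 2 * y) (h4 : ¬ ∃ y ∈ P f, rs f 0 = 4 * y) :
    ∃ ψ : ℕ → ℤ, (∀ q, ψ q = 1 ∨ ψ q = -1) ∧
      (∀ q, GoodPrime a b q → (Odd (pointCount a b q + 1) ∨ q % 8 = 1) → ψ q = 1) ∧
      ∀ S : Finset ℕ, (∀ q ∈ S, GoodPrime a b q ∧ q % 4 = 1 ∧ (Odd (pointCount a b q + 1) ∨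
          (¬ 4 ∣ pointCount a b q + 1 ∧ jacobiSym N q = 1))) →
        ∏ q ∈ S, ψ q = 1 →
        RankZero (a * ((∏ q ∈ S, q : ℕ) : ℤ) ^ 2) (b * ((∏ q ∈ S, q : ℕ) : ℤ) ^ 3) := by
  classical
  obtain ⟨y, hy, hy2⟩ := h2
  obtain ⟨l, hl⟩ := exists_odd (finite_P hΔ hf) ⟨y, hy⟩ (by
    rintro ⟨z, hz⟩
    apply h4
    refine ⟨z, z.2, ?_⟩
    have h1 := congrArg Subtype.val hz
    have h3 : y = 2 * (z : ℝ) := by
      have : ((2 • z : P f) : ℝ) = 2 * (z : ℝ) := by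
        rw [two_smul, two_mul]; rfl
      rw [← this]; exact h1
    rw [hy2, h3]
    ring)
  obtain ⟨u, hu⟩ := hl
  have h0 : ls l 0 = 2 * (2 * u + 1) := by
    have e : (⟨rs f 0, rs_mem f 0⟩ : P f) = 2 • ⟨y, hy⟩ := by
      apply Subtype.ext
      rw [two_smul]
      show rs f 0 = y + y
      rw [hy2]; ring
    unfold ls
    rw [e, map_nsmul, hu]
    ring
  have hne : ls l 0 ≠ 0 := by omega
  have hGS := isGS hf l hne
  obtain ⟨ψ, hψ1, hψ2, hmain⟩ := two_comb hGS h0 (coprime_of hf)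
  have hpar : ∀ q, GoodPrime a b q → Odd (pointCount a b q + 1) →
      Odd ((q : ℤ) - pointCount a b q) := by
    intro q hG ho
    have hq2 : q % 2 = 1 := by
      rcases hG.1.eq_two_or_odd with h | h
      · exfalso
        apply hG.2
        rw [h]
        exact Dvd.intro _ rfl
      · exact h
    obtain ⟨k, hk⟩ := ho
    exact ⟨(q / 2 : ℕ) - k, by omega⟩
  refine ⟨ψ, hψ1, fun q hG hq => hψ2 q ?_, fun S hS hp => ?_⟩
  · rcases hq with hq | hq
    · exact Or.inl (hpar q hG hq)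
    · exact Or.inr hq
  · have hS' : ∀ q ∈ S, adm N (GoodPrime a b) (fun q => (q : ℤ) - pointCount a b q) q := by
      intro q hq
      obtain ⟨hG, h4', hc⟩ := hS q hq
      refine ⟨hG.1, hG, h4', ?_⟩
      by_cases ho : Odd (pointCount a b q + 1)
      · exact Or.inl (hpar q hG ho)
      · refine Or.inr ⟨?_, (hc.resolve_left ho).2⟩
        have h5 := (hc.resolve_left ho).1
        rw [Nat.not_odd_iff_even] at ho
        obtain ⟨k, hk⟩ := ho
        show (4 : ℤ) ∣ (q : ℤ) - pointCount a b q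
        omega
    have h1 := rankZero_of hΔ hf l (fun q hq => (hS q hq).1) (hmain S hS' hp)
    rw [disc_eq (fun q hq => (hS q hq).2.1)] at h1
    exact h1

end Pool.Agent.Y17.GT
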