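import Pool.Agent.Y18.BSD.Main
import Pool.Agent.Y17.GT.Comb

/-!
The real parts of the modular symbols of the newform of an elliptic curve.
-/

set_option autoImplicit false

open Complex Filter Topology Set UpperHalfPlane MatrixGroups CongruenceSubgroup ZMod

namespace Pool.Agent.Y17.GT

open Pool.Agent.TH940 (prim prim_deriv Fr prim_fricke Pers prim_near prim_line)
open Pool.Agent.W263.BSD (pointCount GoodPrime IsLSeries)
open Pool.Agent.Y18.BSD

variable {N : ℕ} [NeZero N] {a b : ℤ} {f : CuspForm (Gamma0 N : Subgroup (GL (Fin 2) ℝ)) 2}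

/-- the real part of the modular symbol -/
noncomputable def rs (f : CuspForm (Gamma0 N : Subgroup (GL (Fin 2) ℝ)) 2) (r : ℚ) : ℝ := (bv f r).re

lemma re_prim (hre : ∀ n, (co f n).im = 0) (r : ℚ) {y : ℝ} (hy : 0 < y) :
    HasSum (fun n : ℕ => (co f n).re / n * Real.exp (-2 * Real.pi * n * y) *
      Real.cos (2 * Real.pi * n * r)) (prim f ((r : ℂ) + (y : ℂ) * Complex.I)).re := by
  have h1 := prim_hasSum f ((r : ℂ) + (y : ℂ) * Complex.I) (by simpa using hy)
  have h2 := Complex.hasSum_re h1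
  have e : (fun n : ℕ => (co f n).re / n * Real.exp (-2 * Real.pi * n * y) *
      Real.cos (2 * Real.pi * n * r)) = fun n : ℕ => (co f n / n *
      Complex.exp (2 * Real.pi * Complex.I * n * ((r : ℂ) + (y : ℂ) * Complex.I))).re := by
    funext n
    have e1 : (2 * Real.pi * Complex.I * n * ((r : ℂ) + (y : ℂ) * Complex.I) : ℂ) =
        ((-2 * Real.pi * n * y : ℝ) : ℂ) + ((2 * Real.pi * n * r : ℝ) : ℂ) * Complex.I := by
      push_cast
      linear_combination (2 * Real.pi * n * y : ℂ) * Complex.I_sq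
    have e2 : co f n = (((co f n).re : ℝ) : ℂ) := by
      apply Complex.ext
      · simp
      · simp [hre n]
    rw [e1, Complex.exp_add, ← Complex.ofReal_exp]
    nth_rewrite 2 [e2]
    rw [show ((((co f n).re : ℝ) : ℂ) / (n : ℂ)) = (((co f n).re / n : ℝ) : ℂ) by push_cast; rfl,
      ← mul_assoc, ← Complex.ofReal_mul, Complex.re_ofReal_mul, Complex.exp_ofReal_mul_I_re]
  rw [e]
  exact h2

lemma rs_tendsto (hre : ∀ n, (co f n).im = 0) {ε : ℂ} (hfr : Fr f ε) {r : ℚ}
    (hr : r.den.Coprime N) :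
    Tendsto (fun y : ℝ => ∑' n : ℕ, (co f n).re / n * Real.exp (-2 * Real.pi * n * y) *
      Real.cos (2 * Real.pi * n * r)) (𝓝[>] 0) (𝓝 (rs f r)) := by
  have h1 := (Complex.continuous_re.tendsto _).comp (bv_tendsto f hfr r hr)
  refine h1.congr' ?_
  filter_upwards [self_mem_nhdsWithin] with y (hy : 0 < y)
  exact (re_prim hre r hy).tsum_eq.symm

lemma rs_period (r : ℚ) : rs f (r + 1) = rs f r := by
  unfold rs; rw [bv_period]

lemma rs_bad {r : ℚ} (hr : ¬ r.den.Coprime N) : rs f r = 0 := by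
  unfold rs bv
  rw [if_neg hr]
  rfl

lemma rs_neg (hre : ∀ n, (co f n).im = 0) {ε : ℂ} (hfr : Fr f ε) (r : ℚ) : rs f (-r) = rs f r := by
  by_cases hr : r.den.Coprime N
  · have hr' : (-r).den.Coprime N := by rw [Rat.neg_den]; exact hr
    have h1 := rs_tendsto hre hfr hr'
    have h2 := rs_tendsto hre hfr hr
    refine tendsto_nhds_unique h1 (h2.congr fun y => ?_)
    refine tsum_congr fun n => ?_
    congr 1
    push_cast
    rw [mul_neg, Real.cos_neg]
  · have hr' : ¬ (-r).den.Coprime N := by rw [Rat.neg_den]; exact hr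
    rw [rs_bad hr, rs_bad hr']

/-- the Fricke involution and the boundary values -/
lemma bv_fricke {ε : ℂ} (hfr : Fr f ε) (hε : ε * ε = 1) (r : ℚ) (hr : r.den.Coprime N) (v d : ℤ)
    (hd : (r.den : ℤ) * d - N * r.num * v = 1) : bv f ((v : ℚ) / r.den) = ε * bv f r := by
  obtain ⟨c0, hc0⟩ := prim_fricke f ε hfr
  set q := r.den with hq
  have : NeZero q := ⟨r.den_nz⟩
  have hq0 : (0 : ℝ) < q := Nat.cast_pos.2 (Nat.pos_of_ne_zero (NeZero.ne q))
  have hN0 : (0 : ℝ) < N := Nat.cast_pos.2 (Nat.pos_of_ne_zero (NeZero.ne N))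
  obtain ⟨ω, -, h⟩ := prim_near f ε hc0 (pers_PG f) r.num v d hd
  have e2 : ((r.num : ℂ) / (q : ℂ)) = (r : ℂ) := by
    rw [hq]
    exact_mod_cast congrArg (fun x : ℚ => (x : ℂ)) (Rat.num_div_den r)
  have hvden : (((v : ℚ) / q).den).Coprime N := by
    rw [den_iff]
    refine ⟨q, hr, v, ?_⟩
    have : (q : ℚ) ≠ 0 := by exact_mod_cast NeZero.ne q
    field_simp
  -- first end
  have t1 : Tendsto (fun T : ℝ => prim f ((r : ℂ) + ((1 / (N * (q : ℝ) ^ 2 * T) : ℝ) : ℂ) * Complex.I))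
      atTop (𝓝 (bv f r)) := by
    refine (bv_tendsto f hfr r hr).comp ?_
    refine tendsto_nhdsWithin_iff.2 ⟨?_, ?_⟩
    · have h1 : Tendsto (fun T : ℝ => (N * (q : ℝ) ^ 2)⁻¹ * T⁻¹) atTop (𝓝 ((N * (q : ℝ) ^ 2)⁻¹ * 0)) :=
        tendsto_inv_atTop_zero.const_mul _
      rw [mul_zero] at h1
      refine h1.congr fun T => ?_
      rw [one_div, ← mul_inv]
    · filter_upwards [eventually_gt_atTop (0 : ℝ)] with T hT
      exact mem_Ioi.2 (by positivity)
  have t2 : Tendsto (fun T : ℝ => c0 + ω - ε * prim f ((v : ℂ) / q + (T : ℂ) * Complex.I)) atTop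
      (𝓝 (c0 + ω - ε * 0)) := by
    have h1 := prim_line f ((v : ℝ) / q)
    have h2 : ((((v : ℝ) / q : ℝ)) : ℂ) = (v : ℂ) / q := by push_cast; rfl
    rw [h2] at h1
    exact (h1.const_mul ε).const_sub _
  rw [mul_zero, sub_zero] at t2
  have e1 : bv f r = c0 + ω := by
    refine tendsto_nhds_unique t1 (t2.congr' ?_)
    filter_upwards [eventually_gt_atTop (0 : ℝ)] with T hT
    rw [← h T hT, e2]
  -- second end
  have t3 : Tendsto (fun T : ℝ => prim f ((r : ℂ) + ((1 / (N * (q : ℝ) ^ 2 * T) : ℝ) : ℂ) * Complex.I))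
      (𝓝[>] 0) (𝓝 0) := by
    have h1 := prim_line f (r : ℝ)
    have h2 : Tendsto (fun T : ℝ => 1 / (N * (q : ℝ) ^ 2 * T)) (𝓝[>] 0) atTop := by
      have e : (fun T : ℝ => 1 / (N * (q : ℝ) ^ 2 * T)) = fun T : ℝ => (N * (q : ℝ) ^ 2)⁻¹ * T⁻¹ := by
        funext T
        rw [one_div, mul_inv]
      rw [e]
      exact tendsto_inv_nhdsGT_zero.const_mul_atTop (by positivity)
    have h3 := h1.comp h2
    have e : (((r : ℝ)) : ℂ) = (r : ℂ) := by push_cast; rfl
    simp only [Function.comp_def, e] at h3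
    exact h3
  have t4 : Tendsto (fun T : ℝ => c0 + ω - ε * prim f ((v : ℂ) / q + (T : ℂ) * Complex.I)) (𝓝[>] 0)
      (𝓝 (c0 + ω - ε * bv f ((v : ℚ) / q))) := by
    have h1 := bv_tendsto f hfr ((v : ℚ) / q) hvden
    have e : ((((v : ℚ) / q : ℚ)) : ℂ) = (v : ℂ) / q := by push_cast; rfl
    rw [e] at h1
    exact (h1.const_mul ε).const_sub _
  have e3 : c0 + ω - ε * bv f ((v : ℚ) / q) = 0 := by
    refine tendsto_nhds_unique t4 (t3.congr' ?_)
    filter_upwards [self_mem_nhdsWithin] with T (hT : 0 < T)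
    rw [← h T hT, e2]
  rw [e1]
  have e4 : ε * (ε * bv f ((v : ℚ) / q)) = ε * (c0 + ω) := by
    congr 1
    linear_combination -e3
  rw [← mul_assoc, hε, one_mul] at e4
  exact e4

/-- the involution for the real parts, sign `+1` -/
lemma rs_inv (hre : ∀ n, (co f n).im = 0) {w : ℝ} (hw : w = 1 ∨ w = -1) (hfr : Fr f (w : ℂ))
    {M : ℕ} {u v : ℤ} (hM : 0 < M) (h : (M : ℤ) ∣ N * u * v - 1) :
    rs f ((v : ℚ) / M) = w * rs f ((u : ℚ) / M) := by
  have hww : (w : ℂ) * (w : ℂ) = 1 := by rcases hw with rfl | rfl <;> norm_num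
  obtain ⟨k, hk⟩ := h
  have hcop : IsCoprime (u : ℤ) (M : ℤ) := ⟨N * v, -k, by linear_combination hk⟩
  have hcN : Nat.Coprime M N := by
    rw [← Nat.isCoprime_iff_coprime]
    exact ⟨-k, u * v, by linear_combination hk⟩
  have hden : ((u : ℚ) / M).den = M := by
    have h1 : ((u : ℚ) / ((M : ℤ) : ℚ)).den = ((M : ℤ)).toNat := by
      have := Rat.den_div_eq_of_coprime (a := u) (b := (M : ℤ)) (by exact_mod_cast hM)
        (Int.isCoprime_iff_gcd_eq_one.1 hcop)
      omega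
    simpa using h1
  have hnum : ((u : ℚ) / M).num = u := by
    have := Rat.num_div_eq_of_coprime (a := u) (b := (M : ℤ)) (by exact_mod_cast hM)
      (Int.isCoprime_iff_gcd_eq_one.1 hcop)
    simpa using this
  have h1 := bv_fricke hfr hww ((u : ℚ) / M) (by rw [hden]; exact hcN) (-v) (-k)
    (by rw [hden, hnum]; linear_combination hk)
  rw [hden] at h1
  have e1 : (((-v : ℤ) : ℚ) / M) = -((v : ℚ) / M) := by push_cast; ring
  rw [e1] at h1
  have h2 := rs_neg hre hfr ((v : ℚ) / M)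
  rw [← h2]
  unfold rs
  rw [h1, Complex.re_ofReal_mul]

/-- the group generated by the real parts -/
noncomputable def P (f : CuspForm (Gamma0 N : Subgroup (GL (Fin 2) ℝ)) 2) : AddSubgroup ℝ :=
  AddSubgroup.closure {x | ∃ r : ℚ, r.den.Coprime N ∧ x = rs f r}

lemma rs_mem (f : CuspForm (Gamma0 N : Subgroup (GL (Fin 2) ℝ)) 2) (r : ℚ) : rs f r ∈ P f := by
  by_cases hr : r.den.Coprime N
  · exact AddSubgroup.subset_closure ⟨r, hr, rfl⟩
  · rw [rs_bad hr]
    exact AddSubgroup.zero_mem _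

lemma exists_good (hΔ : 4 * a ^ 3 + 27 * b ^ 2 ≠ 0) : ∃ p : ℕ, GoodPrime a b p := by
  have hD : (2 * (-4 * a ^ 3 - 27 * b ^ 2) : ℤ) ≠ 0 := by
    intro h
    apply hΔ
    omega
  obtain ⟨p, hp1, hp2⟩ := Nat.exists_infinite_primes ((2 * (-4 * a ^ 3 - 27 * b ^ 2) : ℤ).natAbs + 1)
  refine ⟨p, hp2, fun h => ?_⟩
  have h1 : p ∣ (2 * (-4 * a ^ 3 - 27 * b ^ 2) : ℤ).natAbs := Int.natCast_dvd.1 h
  have h2 := Nat.le_of_dvd (Int.natAbs_pos.2 hD) h1
  omega

lemma finite_P (hΔ : 4 * a ^ 3 + 27 * b ^ 2 ≠ 0) (hf : IsFormOf a b N f) :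
    Module.Finite ℤ (P f) := by
  obtain ⟨w, hnf, hfr⟩ := hf.newf
  have hrel := hf.hrel
  obtain ⟨p0, hp0⟩ := exists_good hΔ
  obtain ⟨hp0N, hcp0⟩ := hf.points p0 hp0
  set n0 : ℤ := (p0 : ℤ) + 1 - ((p0 : ℤ) - (pointCount a b p0 : ℤ)) with hn0
  have hn00 : n0 ≠ 0 := by
    have : n0 = (pointCount a b p0 : ℤ) + 1 := by rw [hn0]; ring
    rw [this]
    positivity
  have hmem : ∀ r : ℚ, (n0 : ℂ) * bv f r ∈ PG f := fun r =>
    bv_mem hrel hfr hp0.1 hp0N ((p0 : ℤ) - (pointCount a b p0 : ℤ)) (by rw [hcp0]; push_cast; rfl) r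
  set reh : ℂ →+ ℝ := Complex.reAddGroupHom with hreh
  set R : AddSubgroup ℝ := (PG f).map reh with hR
  have hfin := finite_PG f
  have hRf : Module.Finite ℤ R := by
    have hsurj : Function.Surjective ((reh.comp (PG f).subtype).rangeRestrict) :=
      AddMonoidHom.rangeRestrict_surjective _
    have e : (reh.comp (PG f).subtype).range = R := by
      rw [hR, AddMonoidHom.range_comp]
      congr 1
      exact AddSubgroup.range_subtype _
    rw [← e]
    exact Module.Finite.of_surjective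
      ((reh.comp (PG f).subtype).rangeRestrict).toIntLinearMap hsurj
  have hx : ∀ x ∈ P f, (n0 : ℝ) * x ∈ R := by
    intro x hx
    refine AddSubgroup.closure_induction (p := fun x _ => (n0 : ℝ) * x ∈ R) ?_ ?_ ?_ ?_ hx
    · rintro y ⟨r, -, rfl⟩
      refine ⟨(n0 : ℂ) * bv f r, hmem r, ?_⟩
      rw [hreh]
      show ((n0 : ℂ) * bv f r).re = _
      rw [show (n0 : ℂ) = ((n0 : ℝ) : ℂ) by push_cast; rfl, Complex.re_ofReal_mul]
      rfl
    · rw [mul_zero]; exact AddSubgroup.zero_mem _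
    · intro y z _ _ hy hz
      rw [mul_add]; exact AddSubgroup.add_mem _ hy hz
    · intro y _ hy
      rw [mul_neg]; exact AddSubgroup.neg_mem _ hy
  let μ : P f →+ R :=
    { toFun := fun x => ⟨(n0 : ℝ) * x, hx x x.2⟩
      map_zero' := by ext; simp
      map_add' := fun x y => by ext; simp [mul_add] }
  have hμ : Function.Injective μ := by
    intro x y hxy
    have h1 : (n0 : ℝ) * x = (n0 : ℝ) * y := congrArg Subtype.val hxy
    exact Subtype.ext (mul_left_cancel₀ (by exact_mod_cast hn00) h1)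
  exact Module.Finite.of_injective μ.toIntLinearMap hμ

/-- a functional with an odd value at an element which is not divisible by two -/
lemma exists_odd (hfin : Module.Finite ℤ (P f)) (x : P f) (hx : ¬ ∃ y : P f, x = 2 • y) :
    ∃ l : P f →+ ℤ, Odd (l x) := by
  have h2 : Module.Free ℤ (P f) := Module.free_of_finite_type_torsion_free'
  let B := Module.Free.chooseBasis ℤ (P f)
  by_contra hcon
  push Not at hcon
  apply hx
  have h3 : ∀ i, ∃ k : ℤ, B.repr x i = 2 * k := by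
    intro i
    have h4 := hcon (B.coord i).toAddMonoidHom
    rw [Int.not_odd_iff_even] at h4
    obtain ⟨k, hk⟩ := h4
    refine ⟨k, ?_⟩
    have : (B.coord i).toAddMonoidHom x = B.repr x i := rfl
    rw [← this, hk]; ring
  choose k hk using h3
  refine ⟨∑ i, k i • B i, ?_⟩
  rw [Finset.smul_sum]
  conv_lhs => rw [← B.sum_repr x]
  refine Finset.sum_congr rfl fun i _ => ?_
  rw [hk i, mul_smul]
  norm_cast

/-- the integral symbol given by a functional -/
noncomputable def ls (l : P f →+ ℤ) (r : ℚ) : ℤ := l ⟨rs f r, rs_mem f r⟩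

lemma isGS (hf : IsFormOf a b N f) (l : P f →+ ℤ) (hl : ls l 0 ≠ 0) :
    GS N (GoodPrime a b) (ls l) (fun q => (q : ℤ) - pointCount a b q) := by
  obtain ⟨w, hw, hfr0⟩ := hf.fricke
  have hfr : Fr f (w : ℂ) := hfr0
  -- the sign
  have hw1 : w = 1 := by
    have hw' := hw
    rcases hw' with h | h
    · exact h
    · exfalso
      apply hl
      have h1 := rs_inv hf.real hw hfr (M := 1) (u := 0) (v := 0) one_pos (by simp)
      rw [h] at h1
      have h2 : rs f 0 = 0 := by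
        push_cast at h1
        rw [zero_div] at h1
        linarith
      have h3 : (⟨rs f 0, rs_mem f 0⟩ : P f) = 0 := Subtype.ext h2
      unfold ls
      rw [h3, map_zero]
  refine ⟨?_, ?_, ?_, ?_⟩
  · intro x
    unfold ls
    congr 1
    exact Subtype.ext (rs_period x)
  · intro x
    unfold ls
    congr 1
    exact Subtype.ext (rs_neg hf.real hfr x)
  · intro q hq hG x
    obtain ⟨h1, h2⟩ := hf.points q hG
    have h3 := bv_hecke hf.hrel hfr hq h1 x
    rw [h2] at h3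
    have h4 : (((q : ℤ) - pointCount a b q : ℤ) : ℝ) * rs f x = rs f (q * x) +
        ∑ u ∈ Finset.range q, rs f ((x + u) / q) := by
      have h5 := congrArg Complex.re h3
      rw [Complex.add_re, Complex.re_sum] at h5
      have e : ((q : ℂ) - (pointCount a b q : ℂ)) = ((((q : ℤ) - pointCount a b q : ℤ) : ℝ) : ℂ) := by
        push_cast; rfl
      rw [e, Complex.re_ofReal_mul] at h5
      exact h5
    unfold ls
    rw [← smul_eq_mul, ← map_zsmul, ← map_sum, ← map_add]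
    congr 1
    apply Subtype.ext
    rw [AddSubgroup.coe_zsmul, AddSubgroup.coe_add, AddSubgroup.val_finsetSum, zsmul_eq_mul]
    exact h4
  · intro M u v hM h
    unfold ls
    congr 1
    apply Subtype.ext
    have := rs_inv hf.real hw hfr hM h
    rw [hw1, one_mul] at this
    exact this.symm

/-- a nonzero sum gives a nonzero central value -/
lemma rankZero_of (hΔ : 4 * a ^ 3 + 27 * b ^ 2 ≠ 0) (hf : IsFormOf a b N f) (l : P f →+ ℤ)
    {T : Finset ℕ} (hT : ∀ q ∈ T, GoodPrime a b q)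
    (h : Pool.Agent.Y687.SS (ls l) (∏ q ∈ T, q) (∏ q ∈ T, q) ≠ 0) :
    RankZero (a * disc T ^ 2) (b * disc T ^ 3) := by
  classical
  have hTp : ∀ q ∈ T, q.Prime := fun q hq => (hT q hq).1
  have hne : NeZero (dd T) := ⟨dd_ne_zero hTp⟩
  obtain ⟨F, hF, κ, hκ, h1⟩ := twist_lseries hΔ hf hT
  refine ⟨F, hF, fun hF1 => h ?_⟩
  rw [hF1, mul_zero] at h1
  have h2 := congrArg Complex.re h1.symm
  unfold psi at h2
  rw [Complex.re_sum, Complex.zero_re] at h2
  have h3 : ∑ u : (ZMod (dd T))ˣ, ((jc T u : ℤ) : ℝ) * rs f (((u : ZMod (dd T)).val : ℚ) / dd T) = 0 := by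
    rw [← h2]
    refine Finset.sum_congr rfl fun u _ => ?_
    rw [show ((jc T u : ℤ) : ℂ) = (((jc T u : ℤ) : ℝ) : ℂ) by push_cast; rfl, Complex.re_ofReal_mul]
    rfl
  have h4 : ∑ u : (ZMod (dd T))ˣ, (jc T u) • (⟨rs f (((u : ZMod (dd T)).val : ℚ) / dd T), rs_mem f _⟩ : P f)
      = 0 := by
    apply Subtype.ext
    rw [AddSubgroup.val_finsetSum, AddSubgroup.coe_zero, ← h3]
    refine Finset.sum_congr rfl fun u _ => ?_
    rw [AddSubgroup.coe_zsmul, zsmul_eq_mul]
  have h5 := congrArg l h4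
  rw [map_sum, map_zero] at h5
  have h6 : (∏ q ∈ T, q) = dd T := rfl
  rw [h6]
  unfold Pool.Agent.Y687.SS
  rw [Pool.Agent.Y687.sum_rr (M := dd T) (fun n => jacobiSym (n : ℤ) (dd T) * ls l ((n : ℚ) / (dd T : ℕ))),
    ← h5]
  refine Finset.sum_congr rfl fun u _ => ?_
  rw [map_zsmul, smul_eq_mul]
  rfl

end Pool.Agent.Y17.GT
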