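import Pool.Agent.Y17.GT.Main
import Pool.Agent.Y17.GT.Eleven
import Pool.Agent.Y17.GT.Fourteen

/-!
# Quadratic twists of elliptic curves whose central value has a small 2-part

`E : y² = x³ + a x + b` is an elliptic curve over `ℚ` with newform `f = ∑ c(n) qⁿ` of level `N`. For a
rational number `r` with denominator prime to `N` let
`φ(r) = lim_{y → 0+} ∑ c(n)/n e^(-2πny) cos(2πnr)`, the real modular symbol, and let `P ⊆ ℝ` be the group
generated by all these numbers. So `φ(0) = L(f, 1)`, and `P` is free of finite rank. The twist of `E` by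
`D` is `E^(D) : y² = x³ + a D² x + b D³`. We prove two results on the values `L(E^(D), 1)`; if such a
value is not zero, then the conjecture of Birch and Swinnerton-Dyer (rank form) holds for `E^(D)`, by
Kolyvagin's theorem.

(1) Let `L(f, 1) ∉ 2P`. Let `p ≡ 1 mod 4` be any prime `p ∤ 2Δ` with `4 ∣ |E(𝔽_p)|` for which `N` is a
square modulo `p` (otherwise all the twists below have sign `-1`). There is a sign `ε` such that
`L(E^(pM), 1) ≠ 0` for all products `M` of different primes `q ≡ 1 mod 4`, `q ∤ 2Δ`, with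
`4 ∤ |E(𝔽_q)|`, which satisfy `(p/M) = ε`. For `p ≡ 1 mod 8` one has `ε = 1` if and only if
`8 ∤ |E(𝔽_p)|`. So at least half of the twists are not zero as soon as one of these `q` is not a square
modulo `p`.

(2) Let `L(f, 1) ∈ 2P`, `L(f, 1) ∉ 4P`. Let `𝒜` be the set of the primes `q ≡ 1 mod 4`, `q ∤ 2Δ`, such
that either `|E(𝔽_q)|` is odd, or `|E(𝔽_q)| ≡ 2 mod 4` and `N` is a square modulo `q`. There is a map `ψ`
to `{1, -1}` with `ψ(q) = 1` if `|E(𝔽_q)|` is odd or `q ≡ 1 mod 8`, such that `L(E^(M), 1) ≠ 0` for all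
products `M` of different primes `q ∈ 𝒜` with `∏_{q ∣ M} ψ(q) = 1`.

The curve `X_0(14) : y² = x³ + 5805 x - 285714` satisfies the hypothesis of (1), and
`X_0(11) : y² = x³ - 13392 x - 1080432` satisfies the hypothesis of (2), and for both curves the newform
is proved to exist.

The proof is Zhao's induction, for modular symbols. The central values are expressed by sums of the
values of an integral modular symbol over the classes of units modulo `M` with given quadratic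
symbols. These sums are divisible by four for the classes on which the involutions `u ↦ ±1/(Nu)` have
no fixed point, and such classes exist although the sum over one fixed class (as in the case without
an exceptional prime) is not divisible by four.
-/

set_option autoImplicit false

open Complex UpperHalfPlane MatrixGroups CongruenceSubgroup Filter Topology

namespace Pool.Agent.Y17.GT.TMT

/-- `N_p`: the number of pairs `(x, y) ∈ (ℤ/p)²` with `y² = x³ + a x + b`; for `p ∤ 2Δ` one has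
`|E(𝔽_p)| = N_p + 1`. -/
noncomputable def pointCount (a b : ℤ) (p : ℕ) : ℕ :=
  Nat.card {q : ZMod p × ZMod p // q.2 ^ 2 = q.1 ^ 3 + (a : ZMod p) * q.1 + (b : ZMod p)}

/-- `p` is a prime not dividing `2 Δ`, `Δ = -4 a³ - 27 b²`. -/
def GoodPrime (a b : ℤ) (p : ℕ) : Prop :=
  p.Prime ∧ ¬ ((p : ℤ) ∣ 2 * (-4 * a ^ 3 - 27 * b ^ 2))

open Classical in
/-- `L(E, 1) ≠ 0` for `E : y² = x³ + a x + b`: there is an entire function `F` which for
`Re s > 3/2` is the incomplete L-series `∏_{p ∤ 2Δ} (1 - a_p p^{-s} + p^{1-2s})⁻¹`, `a_p = p - N_p`,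
of `E`, and `F(1) ≠ 0`. -/
def AnalyticRankZero (a b : ℤ) : Prop :=
  ∃ F : ℂ → ℂ, (Differentiable ℂ F ∧ ∀ s : ℂ, (3 : ℝ) / 2 < s.re →
    HasProd (fun p : ℕ => if GoodPrime a b p then
      (1 - ((p : ℂ) - (pointCount a b p : ℂ)) * (p : ℂ) ^ (-s) + (p : ℂ) ^ (1 - 2 * s))⁻¹ else 1)
      (F s)) ∧ F 1 ≠ 0

/-- The `n`-th Fourier coefficient of `f`. -/
noncomputable def coef {N : ℕ} (f : CuspForm (Gamma0 N : Subgroup (GL (Fin 2) ℝ)) 2) (n : ℕ) : ℂ :=
  (qExpansion 1 f).coeff n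

/-- `f ∈ S_2(Γ₀(N))` is the newform of the elliptic curve `E : y² = x³ + a x + b`, with its standard
properties: the Fourier coefficients `c(n)` of `f` are real with `c(1) = 1`, they satisfy the Hecke
relations `c(mn) = c(m) c(n)` for coprime `m`, `n` and `c(p^(j+2)) = c(p) c(p^(j+1)) - p c(p^j)`
(without the last term if `p ∣ N`) and the bounds `|c(p)| ≤ 2√p` for `p ∤ N`, `|c(p)| ≤ 1` for
`p ∣ N`; `f` is an eigenfunction of the Fricke involution: `f(-1/(Nτ)) = -w N τ² f(τ)` with `w = ±1`;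
for all primes `p ∤ 2Δ` one has `p ∤ N` and `c(p) = a_p(E)`.  (Every elliptic curve over `ℚ` has such a
form by the modularity theorem.) -/
structure IsFormOf (a b : ℤ) (N : ℕ) (f : CuspForm (Gamma0 N : Subgroup (GL (Fin 2) ℝ)) 2) :
    Prop where
  one : coef f 1 = 1
  real : ∀ n, (coef f n).im = 0
  mul : ∀ m n : ℕ, Nat.Coprime m n → coef f (m * n) = coef f m * coef f n
  pow : ∀ p j : ℕ, p.Prime → coef f (p ^ (j + 2)) = coef f p * coef f (p ^ (j + 1)) -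
      (if p ∣ N then 0 else (p : ℂ) * coef f (p ^ j))
  good : ∀ p : ℕ, p.Prime → ¬ p ∣ N → ‖coef f p‖ ≤ 2 * Real.sqrt p
  bad : ∀ p : ℕ, p.Prime → p ∣ N → ‖coef f p‖ ≤ 1
  fricke : ∃ w : ℝ, (w = 1 ∨ w = -1) ∧ ∀ τ τ' : ℍ, (τ' : ℂ) * ((N : ℂ) * (τ : ℂ)) = -1 →
    f τ' = -(w : ℂ) * (N : ℂ) * (τ : ℂ) ^ 2 * f τ
  points : ∀ p : ℕ, GoodPrime a b p → ¬ p ∣ N ∧ coef f p = (p : ℂ) - (pointCount a b p : ℂ)

/-- The real modular symbol `φ(r) = lim_{y → 0+} ∑ c(n)/n e^(-2πny) cos(2πnr)`. (The limit exists for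
all `r` with denominator prime to the level.) -/
noncomputable def symbol {N : ℕ} (f : CuspForm (Gamma0 N : Subgroup (GL (Fin 2) ℝ)) 2) (r : ℚ) : ℝ :=
  limUnder (𝓝[>] (0 : ℝ)) fun y : ℝ => ∑' n : ℕ,
    (coef f n).re / n * Real.exp (-2 * Real.pi * n * y) * Real.cos (2 * Real.pi * n * r)

/-- The group `P` generated by the numbers `φ(r)`, `r` with denominator prime to `N`. -/
noncomputable def symbolGroup {N : ℕ} (f : CuspForm (Gamma0 N : Subgroup (GL (Fin 2) ℝ)) 2) :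
    AddSubgroup ℝ :=
  AddSubgroup.closure {x | ∃ r : ℚ, r.den.Coprime N ∧ x = symbol f r}

theorem IsFormOf.to {a b : ℤ} {N : ℕ} {f : CuspForm (Gamma0 N : Subgroup (GL (Fin 2) ℝ)) 2}
    (hf : IsFormOf a b N f) : Pool.Agent.Y18.BSD.IsFormOf a b N f :=
  ⟨hf.one, hf.real, hf.mul, hf.pow, hf.good, hf.bad, hf.fricke, hf.points⟩

theorem IsFormOf.of {a b : ℤ} {N : ℕ} {f : CuspForm (Gamma0 N : Subgroup (GL (Fin 2) ℝ)) 2}
    (hf : Pool.Agent.Y18.BSD.IsFormOf a b N f) : IsFormOf a b N f :=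
  ⟨hf.one, hf.real, hf.mul, hf.pow, hf.good, hf.bad, hf.fricke, hf.points⟩

theorem symbol_eq {a b : ℤ} {N : ℕ} [NeZero N]
    {f : CuspForm (Gamma0 N : Subgroup (GL (Fin 2) ℝ)) 2} (hf : IsFormOf a b N f) (r : ℚ)
    (hr : r.den.Coprime N) : symbol f r = Pool.Agent.Y17.GT.rs f r := by
  obtain ⟨w, -, hfr⟩ := hf.to.fricke
  exact (Pool.Agent.Y17.GT.rs_tendsto (ε := (w : ℂ)) hf.to.real hfr hr).limUnder_eq

theorem group_eq {a b : ℤ} {N : ℕ} [NeZero N]
    {f : CuspForm (Gamma0 N : Subgroup (GL (Fin 2) ℝ)) 2} (hf : IsFormOf a b N f) :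
    symbolGroup f = Pool.Agent.Y17.GT.P f := by
  unfold symbolGroup Pool.Agent.Y17.GT.P
  congr 1
  ext x
  constructor
  · rintro ⟨r, hr, rfl⟩
    exact ⟨r, hr, symbol_eq hf r hr⟩
  · rintro ⟨r, hr, rfl⟩
    exact ⟨r, hr, (symbol_eq hf r hr).symm⟩

/-- **Theorem.** Let `f` be the newform of `E : y² = x³ + a x + b`, of level `N`, and `P` the group of
its real modular symbols.

(1) If `L(f, 1) ∉ 2P`, then for every prime `p ≡ 1 mod 4`, `p ∤ 2Δ`, with `4 ∣ |E(𝔽_p)|` and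
`(N/p) = 1` there is a sign `ε` such that `L(E^(pM), 1) ≠ 0` for all products `M` of different primes
`q ≡ 1 mod 4`, `q ∤ 2Δ`, with `4 ∤ |E(𝔽_q)|` and `(p/M) = ε`; if `p ≡ 1 mod 8`, then `ε = 1` if and only
if `8 ∤ |E(𝔽_p)|`.

(2) If `L(f, 1) ∈ 2P` and `L(f, 1) ∉ 4P`, then there is a map `ψ` to `{1, -1}` with `ψ(q) = 1` for all
`q ∤ 2Δ` with `|E(𝔽_q)|` odd or `q ≡ 1 mod 8`, such that `L(E^(M), 1) ≠ 0` for all products `M` of
different primes `q ≡ 1 mod 4`, `q ∤ 2Δ`, with `|E(𝔽_q)|` odd or (`4 ∤ |E(𝔽_q)|` and `(N/q) = 1`), and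
`∏_{q ∣ M} ψ(q) = 1`.

(3) The curve `X_0(14) : y² = x³ + 5805 x - 285714` has a newform with the property of (1).

(4) The curve `X_0(11) : y² = x³ - 13392 x - 1080432` has a newform with the property of (2). -/
theorem twoMinimal :
    (∀ a b : ℤ, 4 * a ^ 3 + 27 * b ^ 2 ≠ 0 → ∀ N : ℕ, N ≠ 0 →
      ∀ f : CuspForm (Gamma0 N : Subgroup (GL (Fin 2) ℝ)) 2, IsFormOf a b N f →
      ((¬ ∃ y ∈ symbolGroup f, symbol f 0 = 2 * y) →
        ∀ p : ℕ, GoodPrime a b p → p % 4 = 1 → jacobiSym N p = 1 → 4 ∣ pointCount a b p + 1 →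
        ∃ ε : ℤ, (ε = 1 ∨ ε = -1) ∧ (p % 8 = 1 → (ε = 1 ↔ ¬ 8 ∣ pointCount a b p + 1)) ∧
          ∀ S : Finset ℕ, (∀ q ∈ S, GoodPrime a b q ∧ q % 4 = 1 ∧ ¬ 4 ∣ pointCount a b q + 1) →
            jacobiSym p (∏ q ∈ S, q) = ε →
            AnalyticRankZero (a * ((p * ∏ q ∈ S, q : ℕ) : ℤ) ^ 2)
              (b * ((p * ∏ q ∈ S, q : ℕ) : ℤ) ^ 3)) ∧
      ((∃ y ∈ symbolGroup f, symbol f 0 = 2 * y) → (¬ ∃ y ∈ symbolGroup f, symbol f 0 = 4 * y) →
        ∃ ψ : ℕ → ℤ, (∀ q, ψ q = 1 ∨ ψ q = -1) ∧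
          (∀ q, GoodPrime a b q → (Odd (pointCount a b q + 1) ∨ q % 8 = 1) → ψ q = 1) ∧
          ∀ S : Finset ℕ, (∀ q ∈ S, GoodPrime a b q ∧ q % 4 = 1 ∧ (Odd (pointCount a b q + 1) ∨
              (¬ 4 ∣ pointCount a b q + 1 ∧ jacobiSym N q = 1))) →
            ∏ q ∈ S, ψ q = 1 →
            AnalyticRankZero (a * ((∏ q ∈ S, q : ℕ) : ℤ) ^ 2)
              (b * ((∏ q ∈ S, q : ℕ) : ℤ) ^ 3))) ∧
    (∃ f : CuspForm (Gamma0 14 : Subgroup (GL (Fin 2) ℝ)) 2, IsFormOf 5805 (-285714) 14 f ∧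
      ¬ ∃ y ∈ symbolGroup f, symbol f 0 = 2 * y) ∧
    (∃ f : CuspForm (Gamma0 11 : Subgroup (GL (Fin 2) ℝ)) 2, IsFormOf (-13392) (-1080432) 11 f ∧
      (∃ y ∈ symbolGroup f, symbol f 0 = 2 * y) ∧ ¬ ∃ y ∈ symbolGroup f, symbol f 0 = 4 * y) := by
  refine ⟨?_, ?_, ?_⟩
  · intro a b hΔ N hN f hf
    have : NeZero N := ⟨hN⟩
    have e0 : symbol f 0 = Pool.Agent.Y17.GT.rs f 0 := symbol_eq hf 0 (by simp)
    rw [group_eq hf, e0]
    exact ⟨fun hmin p hG hp4 hNp h4 => Pool.Agent.Y17.GT.main_one hΔ hf.to hmin hG hp4 hNp h4,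
      fun h2 h4 => Pool.Agent.Y17.GT.main_two hΔ hf.to h2 h4⟩
  · have hf := IsFormOf.of Pool.Agent.Y17.GT.Fourteen.isFormOf
    refine ⟨_, hf, ?_⟩
    rw [group_eq hf, symbol_eq hf 0 (by simp)]
    exact Pool.Agent.Y17.GT.Fourteen.main
  · have hf := IsFormOf.of Pool.Agent.Y18.BSD.Eleven.isFormOf
    refine ⟨_, hf, ?_⟩
    rw [group_eq hf, symbol_eq hf 0 (by simp)]
    exact Pool.Agent.Y17.GT.Eleven.main

end Pool.Agent.Y17.GT.TMT
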